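import Pool.Agent.TH561.PB.Words2

/-!
# The trace of a word in the Temperley–Lieb generators

For a family of representations of the Temperley–Lieb algebra with traces, the trace of every word is a
power of the loop value times the trace of a word `e (M-2), e (M-4), …`, with exponents that do not
depend on the representation.
-/

set_option autoImplicit false

namespace Pool.Agent.H970.TA

open Pool.Agent.H891R2.Jones Pool.Agent.TH561

/-- the word `r - 2, r - 4, …` of length `t` -/
def tops : ℕ → ℕ → List ℕ
  | _, 0 => []
  | r, t+1 => (r - 2) :: tops (r - 2) t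

theorem tops_mem : ∀ (t r : ℕ), 2 * t ≤ r → ∀ i ∈ tops r t, i + 1 < r
  | 0, _, _, i, hi => by simp [tops] at hi
  | t+1, r, h, i, hi => by
    rw [tops, List.mem_cons] at hi
    rcases hi with rfl | hi
    · omega
    · have := tops_mem t (r-2) (by omega) i hi
      omega

section red

variable {K : Type*} [Field K] {ι : Type*} {R : ι → Type*} [∀ j, Ring (R j)]
  [∀ j, Algebra K (R j)] {M : ℕ} {d : ι → K} {e : ∀ j, ℕ → R j}

theorem red_trace (h : ∀ j, IsTL M (d j) (e j)) (τ : ∀ j, R j →ₗ[K] K)
    (hcyc : ∀ j x y, τ j (x * y) = τ j (y * x)) :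
    ∀ r, r ≤ M → ∀ L : List ℕ, (∀ i ∈ L, i + 1 < r) → ∃ x y t : ℕ, 2 * t ≤ r ∧
      ∀ j, ∀ G : R j, (∀ i, i + 1 < r → Commute G (e j i)) →
        (d j) ^ x * τ j (G * WP (e j) L) = (d j) ^ y * τ j (G * WP (e j) (tops r t)) := by
  intro r
  induction r using Nat.strong_induction_on with
  | _ r ih =>
    intro hr L hL
    by_cases hL0 : L = []
    · subst hL0
      exact ⟨0, 0, 0, by omega, fun j G _ => rfl⟩
    · -- the largest letter
      obtain ⟨k0, hk0, hk0'⟩ : ∃ k0 ∈ L, ∀ i ∈ L, i ≤ k0 := by
        classical
        have hne : L.toFinset.Nonempty := by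
          rw [List.toFinset_nonempty_iff]; exact hL0
        refine ⟨L.toFinset.max' hne, ?_, fun i hi => ?_⟩
        · exact List.mem_toFinset.1 (Finset.max'_mem _ hne)
        · exact Finset.le_max' _ _ (List.mem_toFinset.2 hi)
      have hk0M := hL k0 hk0
      rcases propC h k0 (by omega) L hk0' with hX | ⟨b, L1, L2, hL1, hL2, hlen, hE⟩
      · exact absurd (hX k0 hk0) (lt_irrefl _)
      obtain ⟨a, X', hX', hpar, hE'⟩ := propD h k0 (by omega) (L2 ++ L1) (by
        intro i hi
        rcases List.mem_append.1 hi with hi | hi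
        · exact hL2 i hi
        · exact hL1 i hi)
      obtain ⟨x, y, t, ht, g⟩ := ih (r-2) (by omega) (by omega) X' (fun i hi => by
        have := hX' i hi; omega)
      refine ⟨x + 1, b + a + y, t + 1, by omega, fun j G hG => ?_⟩
      have hGW : ∀ X : List ℕ, (∀ i ∈ X, i + 1 < r) → Commute G (WP (e j) X) := by
        intro X hX
        induction X with
        | nil => exact Commute.one_right _
        | cons i X ihX =>
          rw [WP_cons]
          exact (hG i (hX i List.mem_cons_self)).mul_right
            (ihX (fun i hi => hX i (List.mem_cons_of_mem _ hi)))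
      have hGe : Commute G (e j k0) := hG k0 hk0M
      have hcX : Commute (e j k0) (WP (e j) X') := comm_WP h k0 (by omega) X' hX' j
      -- step 1
      have e1 : τ j (G * WP (e j) L) = (d j) ^ b * τ j (G * WP (e j) (L2 ++ L1) * e j k0) := by
        rw [hE j, mul_smul_comm, map_smul, smul_eq_mul]
        congr 1
        have hc2 : Commute G (WP (e j) L2) := hGW L2 (fun i hi => by have := hL2 i hi; omega)
        calc τ j (G * (WP (e j) L1 * e j k0 * WP (e j) L2))
            = τ j ((G * WP (e j) L1 * e j k0) * WP (e j) L2) := by congr 1; noncomm_ring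
          _ = τ j (WP (e j) L2 * (G * WP (e j) L1 * e j k0)) := hcyc _ _ _
          _ = τ j ((WP (e j) L2 * G) * WP (e j) L1 * e j k0) := by congr 1; noncomm_ring
          _ = τ j ((G * WP (e j) L2) * WP (e j) L1 * e j k0) := by rw [hc2.eq]
          _ = _ := by rw [WP_append]; congr 1; noncomm_ring
      -- step 2
      have e2 : d j * τ j (G * WP (e j) (L2 ++ L1) * e j k0) =
          (d j) ^ a * τ j (G * WP (e j) X' * e j k0) := by
        calc d j * τ j (G * WP (e j) (L2 ++ L1) * e j k0)
            = τ j ((G * WP (e j) (L2 ++ L1)) * (e j k0 * e j k0)) := by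
              rw [(h j).sq k0 (by omega), mul_smul_comm, map_smul, smul_eq_mul]
          _ = τ j ((G * WP (e j) (L2 ++ L1) * e j k0) * e j k0) := by congr 1; noncomm_ring
          _ = τ j (e j k0 * (G * WP (e j) (L2 ++ L1) * e j k0)) := hcyc _ _ _
          _ = τ j ((e j k0 * G) * WP (e j) (L2 ++ L1) * e j k0) := by congr 1; noncomm_ring
          _ = τ j ((G * e j k0) * WP (e j) (L2 ++ L1) * e j k0) := by rw [hGe.eq]
          _ = τ j (G * (e j k0 * WP (e j) (L2 ++ L1) * e j k0)) := by congr 1; noncomm_ring
          _ = _ := by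
              rw [hE' j, mul_smul_comm, map_smul, smul_eq_mul]
              congr 2
              noncomm_ring
      -- step 3
      have e3 : τ j (G * WP (e j) X' * e j k0) = τ j (G * WP (e j) X' * e j (r-2)) := by
        obtain ⟨s, hs⟩ : ∃ s, r - 2 = k0 + s := ⟨r - 2 - k0, by omega⟩
        rw [hs]
        symm
        refine slide_many (h j) (τ j) (hcyc j) _ k0 s (by omega) (fun i h1 h2 => ?_)
        refine Commute.mul_left (hG i (by omega)) ?_
        exact (comm_WP h i (by omega) X' (fun i' hi' => by have := hX' i' hi'; omega) j).symm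
      -- step 4
      have hX'' : Commute (e j (r-2)) (WP (e j) X') :=
        comm_WP h (r-2) (by omega) X' (fun i' hi' => by have := hX' i' hi'; omega) j
      have e4 : G * WP (e j) X' * e j (r-2) = (G * e j (r-2)) * WP (e j) X' := by
        rw [mul_assoc, mul_assoc, hX''.eq]
      have hr2 := g j (G * e j (r-2)) (by
        intro i hi
        refine Commute.mul_left (hG i (by omega)) ?_
        exact ((h j).far i (r-2) (by omega) (by omega)).symm)
      have e5 : G * WP (e j) (tops r (t+1)) = (G * e j (r-2)) * WP (e j) (tops (r-2) t) := by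
        rw [tops, WP_cons, mul_assoc]
      rw [e5, e1]
      calc d j ^ (x + 1) * (d j ^ b * τ j (G * WP (e j) (L2 ++ L1) * e j k0))
          = d j ^ x * d j ^ b * (d j * τ j (G * WP (e j) (L2 ++ L1) * e j k0)) := by ring
        _ = d j ^ b * d j ^ a * (d j ^ x * τ j (G * WP (e j) X' * e j (r-2))) := by
            rw [e2, e3]; ring
        _ = _ := by
            rw [e4, hr2]
            ring

end red

end Pool.Agent.H970.TA
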