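import Pool.Agent.H970_TA.Rep
import Pool.Agent.H970_TA.Red

/-!
# Counting link states
-/

set_option autoImplicit false

namespace Pool.Agent.H970.TA

open Finset

/-! ### the last strand running to infinity -/

/-- the last fixed point -/
def lastf (n : ℕ) (b : ℕ → ℕ) : ℕ := ((range n).filter (fun x => b x = x)).sup id

theorem lastf_eq {n k : ℕ} {b : ℕ → ℕ} (h1 : b k = k) (h2 : k < n)
    (h3 : ∀ x, k < x → x < n → b x ≠ x) : lastf n b = k := by
  unfold lastf
  apply le_antisymm
  · apply Finset.sup_le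
    intro x hx
    rw [mem_filter, mem_range] at hx
    by_contra hcon
    exact h3 x (not_le.1 hcon) hx.1 hx.2
  · exact Finset.le_sup (f := id) (by rw [mem_filter, mem_range]; exact ⟨h2, h1⟩)

theorem lastf_spec {n : ℕ} {b : ℕ → ℕ} (h : nf n b ≠ 0) :
    b (lastf n b) = lastf n b ∧ lastf n b < n ∧ ∀ x, lastf n b < x → x < n → b x ≠ x := by
  unfold nf at h
  have hne : ((range n).filter (fun x => b x = x)).Nonempty := Finset.card_ne_zero.1 h
  obtain ⟨k, hk, hmax⟩ := Finset.exists_max_image _ id hne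
  rw [mem_filter, mem_range] at hk
  have : lastf n b = k := by
    refine lastf_eq hk.2 hk.1 (fun x h1 h2 h3 => ?_)
    have := hmax x (by rw [mem_filter, mem_range]; exact ⟨h2, h3⟩)
    simp only [id] at this
    omega
  rw [this]
  refine ⟨hk.2, hk.1, fun x h1 h2 h3 => ?_⟩
  have := hmax x (by rw [mem_filter, mem_range]; exact ⟨h2, h3⟩)
  simp only [id] at this
  omega

/-- open the arc at the last point -/
def opn (n : ℕ) (b : ℕ → ℕ) : ℕ → ℕ := fun x => if x = n ∨ x = b n then x else b x

/-- close the last strand with a new last point -/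
def cls (n : ℕ) (b : ℕ → ℕ) : ℕ → ℕ := fun x =>
  if x = n then lastf n b else if x = lastf n b then n else b x

theorem isLS_fix {n : ℕ} {b : ℕ → ℕ} : IsLS n b ↔ IsLS (n+1) b ∧ b n = n := by
  constructor
  · intro h
    exact ⟨⟨h.inv, fun x hx => h.out x (by omega), h.nc⟩, h.out n le_rfl⟩
  · intro h
    refine ⟨h.1.inv, fun x hx => ?_, h.1.nc⟩
    rcases Nat.eq_or_lt_of_le hx with h1 | h1
    · rw [← h1]; exact h.2
    · exact h.1.out x h1

theorem nf_fix {n : ℕ} {b : ℕ → ℕ} (h : b n = n) : nf (n+1) b = nf n b + 1 := by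
  unfold nf
  rw [range_add_one, filter_insert, if_pos h, card_insert_of_notMem]
  simp

theorem isLS_opn {n : ℕ} {b : ℕ → ℕ} (h : IsLS (n+1) b) : IsLS n (opn n b) := by
  have hinv := h.inv
  have hl := h.lt (show n < n + 1 by omega)
  refine ⟨?_, ?_, ?_⟩
  · intro x
    unfold opn
    grind
  · intro x hx
    have := h.out x
    unfold opn
    grind
  · intro x y hxy hyb
    have h1 := h.nc x y
    have h2 := h.lt (x := x)
    have h3 := h.out x
    unfold opn at *
    grind

theorem nf_opn {n : ℕ} {b : ℕ → ℕ} (h : IsLS (n+1) b) (hb : b n ≠ n) :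
    nf n (opn n b) = nf (n+1) b + 1 := by
  unfold nf
  have hinv := h.inv
  have hl := h.lt (show n < n + 1 by omega)
  have h4 : (range n).filter (fun x => opn n b x = x) =
      insert (b n) ((range (n+1)).filter (fun x => b x = x)) := by
    ext x
    simp only [mem_filter, mem_range, mem_insert]
    unfold opn
    grind
  rw [h4, card_insert_of_notMem]
  simp only [mem_filter, mem_range]
  grind

theorem isLS_cls {n : ℕ} {b : ℕ → ℕ} (h : IsLS n b) (h0 : nf n b ≠ 0) : IsLS (n+1) (cls n b) := by
  have hinv := h.inv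
  obtain ⟨h1, h2, h3⟩ := lastf_spec h0
  unfold cls
  generalize lastf n b = k at *
  refine ⟨?_, ?_, ?_⟩
  · intro x
    have := h.out x
    have h5 := h.out n
    grind
  · intro x hx
    have := h.out x
    grind
  · intro x y hxy hyb
    have h4 := h.nc x y
    have h5 := h.nc (b y) k
    have h6 := h.lt (x := x)
    have h7 := h.lt (x := y)
    have h8 := h.out x
    have h9 := h3 y
    grind

theorem nf_cls {n : ℕ} {b : ℕ → ℕ} (h : IsLS n b) (h0 : nf n b ≠ 0) :
    nf n b = nf (n+1) (cls n b) + 1 := by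
  have hinv := h.inv
  obtain ⟨h1, h2, h3⟩ := lastf_spec h0
  unfold nf
  have h4 : (range n).filter (fun x => b x = x) =
      insert (lastf n b) ((range (n+1)).filter (fun x => cls n b x = x)) := by
    ext x
    simp only [mem_filter, mem_range, mem_insert]
    unfold cls
    grind
  rw [h4, card_insert_of_notMem]
  simp only [mem_filter, mem_range]
  unfold cls
  grind

theorem cls_n {n : ℕ} {b : ℕ → ℕ} (h0 : nf n b ≠ 0) : cls n b n ≠ n := by
  obtain ⟨h1, h2, h3⟩ := lastf_spec h0
  unfold cls
  rw [if_pos rfl]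
  omega

theorem opn_cls {n : ℕ} {b : ℕ → ℕ} (h : IsLS n b) (h0 : nf n b ≠ 0) : opn n (cls n b) = b := by
  obtain ⟨h1, h2, h3⟩ := lastf_spec h0
  have := h.out n
  funext x
  unfold opn cls
  grind

theorem cls_opn {n : ℕ} {b : ℕ → ℕ} (h : IsLS (n+1) b) (hb : b n ≠ n) : cls n (opn n b) = b := by
  have hinv := h.inv
  have hl := h.lt (show n < n + 1 by omega)
  have h1 : lastf n (opn n b) = b n := by
    apply lastf_eq
    · unfold opn; simp
    · omega
    · intro x hx hx'
      have := h.nc (b n) x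
      unfold opn
      grind
  funext x
  unfold cls
  rw [h1]
  unfold opn
  grind

theorem card_zero (n : ℕ) : Fintype.card (LS (n+1) 0) = Fintype.card (LS n 1) := by
  apply Fintype.card_congr
  refine ⟨fun b => ⟨opn n b.1, isLS_opn b.2.1, ?_⟩, fun c => ⟨cls n c.1, isLS_cls c.2.1 ?_, ?_⟩, ?_, ?_⟩
  · rw [nf_opn b.2.1, b.2.2]
    intro h
    have h1 := nf_fix h
    have h2 := b.2.2
    omega
  · rw [c.2.2]; norm_num
  · have h1 := nf_cls c.2.1 (by rw [c.2.2]; norm_num)
    have h2 := c.2.2
    omega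
  · intro b
    apply Subtype.ext
    apply cls_opn b.2.1
    intro h
    have h1 := nf_fix h
    have h2 := b.2.2
    omega
  · intro c
    apply Subtype.ext
    exact opn_cls c.2.1 (by rw [c.2.2]; norm_num)

theorem card_succ (n j : ℕ) : Fintype.card (LS (n+1) (j+1)) =
    Fintype.card (LS n j) + Fintype.card (LS n (j+2)) := by
  classical
  rw [← Fintype.card_sum]
  apply Fintype.card_congr
  refine ⟨fun b => if h : b.1 n = n then Sum.inl ⟨b.1, isLS_fix.2 ⟨b.2.1, h⟩, ?_⟩ else
      Sum.inr ⟨opn n b.1, isLS_opn b.2.1, ?_⟩,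
    fun c => Sum.elim (fun c => ⟨c.1, (isLS_fix.1 c.2.1).1, ?_⟩)
      (fun c => ⟨cls n c.1, isLS_cls c.2.1 ?_, ?_⟩) c, ?_, ?_⟩
  · have h1 := nf_fix h
    have h2 := b.2.2
    omega
  · rw [nf_opn b.2.1 h, b.2.2]
  · rw [nf_fix (isLS_fix.1 c.2.1).2, c.2.2]
  · rw [c.2.2]; omega
  · have h1 := nf_cls c.2.1 (by rw [c.2.2]; omega)
    have h2 := c.2.2
    omega
  · intro b
    by_cases h : b.1 n = n
    · simp only [dif_pos h, Sum.elim_inl]
      rfl
    · simp only [dif_neg h, Sum.elim_inr]
      apply Subtype.ext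
      exact cls_opn b.2.1 h
  · intro c
    rcases c with c | c
    · have h1 : c.1 n = n := (isLS_fix.1 c.2.1).2
      simp only [Sum.elim_inl]
      rw [dif_pos h1]
      rfl
    · have h1 : cls n c.1 n ≠ n := cls_n (by rw [c.2.2]; omega)
      simp only [Sum.elim_inr]
      rw [dif_neg h1]
      congr 1
      apply Subtype.ext
      exact opn_cls c.2.1 (by rw [c.2.2]; omega)

theorem card_empty (n j : ℕ) (h : n < j) : Fintype.card (LS n j) = 0 := by
  rw [Fintype.card_eq_zero_iff]
  refine ⟨fun b => ?_⟩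
  have h1 := b.2.2
  unfold nf at h1
  have h2 := Finset.card_filter_le (range n) (fun x => b.1 x = x)
  rw [card_range] at h2
  omega

theorem card_base : Fintype.card (LS 0 0) = 1 := by
  rw [Fintype.card_eq_one_iff]
  refine ⟨⟨fun x => x, ⟨fun x => rfl, fun x _ => rfl, fun x y h1 h2 => by omega⟩, rfl⟩, fun b => ?_⟩
  apply Subtype.ext
  funext x
  exact b.2.1.out x (Nat.zero_le _)

/-! ### Chebyshev polynomials -/

/-- the Chebyshev polynomials: `U 0 = 1`, `U 1 = d`, `U (j+2) = d U (j+1) - U j` -/
def U {R : Type*} [CommRing R] (d : R) : ℕ → R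
  | 0 => 1
  | 1 => d
  | j+2 => d * U d (j+1) - U d j

theorem map_U {R S : Type*} [CommRing R] [CommRing S] (f : R →+* S) (d : R) :
    ∀ j, f (U d j) = U (f d) j
  | 0 => by simp [U]
  | 1 => by simp [U]
  | j+2 => by rw [U, U, map_sub, map_mul, map_U f d (j+1), map_U f d j]

theorem sum_U {R : Type*} [CommRing R] (d : R) (n : ℕ) :
    ∀ k, n ≤ k → ∑ j ∈ range (k+1), U d j * (Fintype.card (LS n j) : R) = d ^ n := by
  induction n with
  | zero =>
    intro k _
    rw [Finset.sum_eq_single 0]
    · rw [card_base]; simp [U]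
    · intro j _ hj
      rw [card_empty 0 j (by omega)]; simp
    · intro h; simp at h
  | succ n ih =>
    intro k hk
    obtain ⟨k', rfl⟩ : ∃ k', k = k' + 1 := ⟨k - 1, by omega⟩
    have h1 := ih (k'+2) (by omega)
    have h2 := ih k' (by omega)
    rw [Finset.sum_range_succ', card_zero]
    have h3 : ∀ j, U d (j+1) * (Fintype.card (LS (n+1) (j+1)) : R) =
        U d (j+1) * (Fintype.card (LS n j) : R) + U d (j+1) * (Fintype.card (LS n (j+2)) : R) := by
      intro j
      rw [card_succ]; push_cast; ring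
    rw [Finset.sum_congr rfl (fun j _ => h3 j), Finset.sum_add_distrib]
    rw [Finset.sum_range_succ', Finset.sum_range_succ'] at h1
    -- d * sum
    have h4 : d ^ (n+1) = ∑ j ∈ range (k'+1), d * (U d j * (Fintype.card (LS n j) : R)) := by
      rw [← Finset.mul_sum, h2]; ring
    have h5 : d ^ (n+1) = d * (∑ j ∈ range (k'+1), U d (j+1+1) * (Fintype.card (LS n (j+1+1)) : R) +
        U d (0+1) * (Fintype.card (LS n (0+1)) : R) + U d 0 * (Fintype.card (LS n 0) : R)) := by
      rw [h1]; ring
    -- use the recursion of U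
    have h6 : ∑ j ∈ range (k'+1), U d (j+1) * (Fintype.card (LS n (j+2)) : R) +
        ∑ j ∈ range (k'+1), U d (j+1) * (Fintype.card (LS n j) : R) +
        U d 0 * (Fintype.card (LS n 1) : R) = d ^ (n+1) := by
      have e1 : ∑ j ∈ range (k'+1), U d (j+1) * (Fintype.card (LS n j) : R) =
          d * U d 0 * (Fintype.card (LS n 0) : R) +
          ∑ j ∈ range k', U d (j+2) * (Fintype.card (LS n (j+1)) : R) := by
        rw [Finset.sum_range_succ', add_comm]
        simp [U]
      have e2 : ∀ j, U d (j+2) * (Fintype.card (LS n (j+1)) : R) =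
          d * (U d (j+1) * (Fintype.card (LS n (j+1)) : R)) - U d j * (Fintype.card (LS n (j+1)) : R) := by
        intro j; rw [U]; ring
      rw [e1, Finset.sum_congr rfl (fun j _ => e2 j), Finset.sum_sub_distrib]
      have e3 : ∑ j ∈ range (k'+1), U d j * (Fintype.card (LS n (j+1)) : R) =
          ∑ j ∈ range k', U d (j+1) * (Fintype.card (LS n (j+2)) : R) +
          U d 0 * (Fintype.card (LS n 1) : R) := by
        rw [Finset.sum_range_succ']
      have e4 : ∑ j ∈ range (k'+1), U d j * (Fintype.card (LS n (j+1)) : R) =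
          ∑ j ∈ range k', U d j * (Fintype.card (LS n (j+1)) : R) +
          U d k' * (Fintype.card (LS n (k'+1)) : R) := by
        rw [Finset.sum_range_succ]
      have e5 : Fintype.card (LS n (k'+1)) = 0 := card_empty _ _ (by omega)
      have e6 : Fintype.card (LS n (k'+2)) = 0 := card_empty _ _ (by omega)
      rw [e5] at e4
      have e7 : ∑ j ∈ range (k'+1), U d (j+1) * (Fintype.card (LS n (j+2)) : R) =
          ∑ j ∈ range k', U d (j+1) * (Fintype.card (LS n (j+2)) : R) := by
        rw [Finset.sum_range_succ, e6]; simp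
      rw [e7]
      have e8 : ∑ j ∈ range k', U d j * (Fintype.card (LS n (j+1)) : R) =
          ∑ j ∈ range k', U d (j+1) * (Fintype.card (LS n (j+2)) : R) +
          U d 0 * (Fintype.card (LS n 1) : R) := by
        rw [← e3, e4]; simp
      rw [e8, h4, Finset.sum_range_succ', ← Finset.mul_sum]
      ring
    rw [← h6]
    ring

/-! ### states with cups at the end -/

/-- add a cup at the end -/
def ad (n : ℕ) (b : ℕ → ℕ) : ℕ → ℕ := fun x => if x = n then n+1 else if x = n+1 then n else b x

/-- remove a cup at the end -/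
def rmv (n : ℕ) (b : ℕ → ℕ) : ℕ → ℕ := fun x => if x = n ∨ x = n+1 then x else b x

theorem isLS_ad {n : ℕ} {b : ℕ → ℕ} (h : IsLS n b) : IsLS (n+2) (ad n b) := by
  have hinv := h.inv
  have h0 := h.out n
  have h0' := h.out (n+1)
  unfold ad
  refine ⟨?_, ?_, ?_⟩
  · intro x; grind
  · intro x hx
    have := h.out x
    grind
  · intro x y hxy hyb
    have h1 := h.nc x y
    have h2 := h.lt (x := x)
    have h3 := h.out x
    grind

theorem isLS_rmv {n : ℕ} {b : ℕ → ℕ} (h : IsLS (n+2) b) (hb : b n = n+1) : IsLS n (rmv n b) := by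
  have hinv := h.inv
  unfold rmv
  refine ⟨?_, ?_, ?_⟩
  · intro x; grind
  · intro x hx
    have := h.out x
    grind
  · intro x y hxy hyb
    have h1 := h.nc x y
    have h2 := h.lt (x := x)
    have h3 := h.out x
    grind

theorem nf_ad {n : ℕ} {b : ℕ → ℕ} : nf (n+2) (ad n b) = nf n b := by
  unfold nf
  congr 1
  ext x
  simp only [mem_filter, mem_range]
  unfold ad
  grind

theorem nf_rmv {n : ℕ} {b : ℕ → ℕ} (h : IsLS (n+2) b) (hb : b n = n+1) :
    nf n (rmv n b) = nf (n+2) b := by
  have hinv := h.inv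
  unfold nf
  congr 1
  ext x
  simp only [mem_filter, mem_range]
  unfold rmv
  grind

theorem card_tops (t : ℕ) : ∀ (n j : ℕ), 2 * t ≤ n →
    Nat.card {b : LS n j // ∀ i ∈ tops n t, Cup i b} = Fintype.card (LS (n - 2 * t) j) := by
  induction t with
  | zero =>
    intro n j _
    rw [← Nat.card_eq_fintype_card]
    apply Nat.card_congr
    simp only [tops, List.not_mem_nil, false_implies, implies_true]
    exact Equiv.subtypeUnivEquiv (fun _ => trivial)
  | succ t ih =>
    intro n j hn
    obtain ⟨n', rfl⟩ : ∃ n', n = n' + 2 := ⟨n - 2, by omega⟩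
    have h1 : n' + 2 - 2 * (t + 1) = n' - 2 * t := by omega
    rw [h1, ← ih n' j (by omega)]
    apply Nat.card_congr
    have ht : tops (n'+2) (t+1) = n' :: tops n' t := by rw [tops]; simp
    have hmem := tops_mem t n' (by omega)
    refine ⟨fun b => ⟨⟨rmv n' b.1.1, isLS_rmv b.1.2.1 ?_, ?_⟩, ?_⟩,
      fun c => ⟨⟨ad n' c.1.1, isLS_ad c.1.2.1, ?_⟩, ?_⟩, ?_, ?_⟩
    · exact b.2 n' (by rw [ht]; exact List.mem_cons_self)
    · rw [nf_rmv b.1.2.1 (b.2 n' (by rw [ht]; exact List.mem_cons_self)), b.1.2.2]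
    · intro i hi
      have h2 := hmem i hi
      have h3 := b.2 i (by rw [ht]; exact List.mem_cons_of_mem _ hi)
      unfold Cup at h3 ⊢
      simp only [rmv]
      rw [if_neg (by omega)]
      exact h3
    · rw [nf_ad, c.1.2.2]
    · intro i hi
      rw [ht, List.mem_cons] at hi
      unfold Cup
      simp only [ad]
      rcases hi with rfl | hi
      · simp
      · have h2 := hmem i hi
        rw [if_neg (by omega), if_neg (by omega)]
        exact c.2 i hi
    · intro b
      apply Subtype.ext
      apply Subtype.ext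
      have h3 : b.1.1 n' = n' + 1 := b.2 n' (by rw [ht]; exact List.mem_cons_self)
      have hinv := b.1.2.1.inv n'
      funext x
      simp only [ad, rmv]
      grind
    · intro c
      apply Subtype.ext
      apply Subtype.ext
      have h3 := c.1.2.1.out n' le_rfl
      have h4 := c.1.2.1.out (n'+1) (by omega)
      funext x
      simp only [ad, rmv]
      grind

end Pool.Agent.H970.TA
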