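import Pool.Agent.H970_TA.Pos

/-!
# The leading coefficients of the traces of alternating words
-/

set_option autoImplicit false

namespace Pool.Agent.H970.TA

open Finset Pool.Agent.H891R2.Jones Pool.Agent.TH561 Pool.Agent.W639.RB LaurentPolynomial

/-! ### coefficients of products -/

theorem coeff_mul_sum (f g : ℕ[T;T⁻¹]) (n : ℤ) :
    (f * g).coeff n = ∑ h ∈ f.coeff.support, f.coeff h * g.coeff (-h + n) := by
  rw [AddMonoidAlgebra.coeff_mul_apply_left]
  rfl

theorem coeff_mul_bdd {f g : ℕ[T;T⁻¹]} {p q : ℤ} (hf : ∀ n, p < n → f.coeff n = 0)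
    (hg : ∀ n, q < n → g.coeff n = 0) : (∀ n, p + q < n → (f * g).coeff n = 0) ∧
      (f * g).coeff (p + q) = f.coeff p * g.coeff q := by
  constructor
  · intro n hn
    rw [coeff_mul_sum]
    apply Finset.sum_eq_zero
    intro h _
    by_cases hh : p < h
    · rw [hf h hh, zero_mul]
    · rw [hg _ (by omega), mul_zero]
  · rw [coeff_mul_sum, Finset.sum_eq_single p]
    · congr 2; ring
    · intro h _ hne
      by_cases hh : p < h
      · rw [hf h hh, zero_mul]
      · rw [hg _ (by omega), mul_zero]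
    · intro hp
      rw [Finsupp.notMem_support_iff.1 hp, zero_mul]

theorem coeff_mul_pos {f g : ℕ[T;T⁻¹]} {n k : ℤ} (hf : f.coeff n ≠ 0) (hg : g.coeff k ≠ 0) :
    (f * g).coeff (n + k) ≠ 0 := by
  rw [coeff_mul_sum]
  have h1 : f.coeff n * g.coeff (-n + (n + k)) ≤
      ∑ h ∈ f.coeff.support, f.coeff h * g.coeff (-h + (n + k)) :=
    Finset.single_le_sum (f := fun h => f.coeff h * g.coeff (-h + (n + k))) (fun _ _ => Nat.zero_le _)
      (Finsupp.mem_support_iff.2 hf)
  have h2 : -n + (n + k) = k := by ring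
  rw [h2] at h1
  have h3 : 0 < f.coeff n * g.coeff k := Nat.mul_pos (Nat.pos_of_ne_zero hf) (Nat.pos_of_ne_zero hg)
  omega

theorem coeff_sum' {ι : Type*} (s : Finset ι) (f : ι → ℕ[T;T⁻¹]) (n : ℤ) :
    (∑ i ∈ s, f i).coeff n = ∑ i ∈ s, (f i).coeff n := by
  rw [AddMonoidAlgebra.coeff_sum, Finset.sum_apply']

variable {m j π : ℕ}

theorem mul_pos' {X Y : Matrix (LS m j) (LS m j) ℕ[T;T⁻¹]} {a b c : LS m j} {n k : ℤ}
    (hX : (X a b).coeff n ≠ 0) (hY : (Y b c).coeff k ≠ 0) : ((X * Y) a c).coeff (n + k) ≠ 0 := by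
  rw [Matrix.mul_apply, coeff_sum']
  have h1 : (X a b * Y b c).coeff (n + k) ≤ ∑ i, (X a i * Y i c).coeff (n + k) :=
    Finset.single_le_sum (f := fun i => (X a i * Y i c).coeff (n + k)) (fun _ _ => Nat.zero_le _)
      (Finset.mem_univ b)
  have h2 := coeff_mul_pos hX hY
  omega

theorem one_coeff (n : ℤ) : (1 : ℕ[T;T⁻¹]).coeff n = if n = 0 then 1 else 0 := by
  rw [← T_zero, T_apply]
  simp only [eq_comm]

theorem T_coeff (k n : ℤ) : (T k : ℕ[T;T⁻¹]).coeff n = if k = n then 1 else 0 := T_apply _ _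

/-! ### the letters -/

/-- degree of a letter -/
def dg (π i : ℕ) : ℤ := if i % 2 = π then 1 else 0

/-- degree of a word -/
def cnt (π : ℕ) (L : List ℕ) : ℤ := (L.map (dg π)).sum

theorem cnt_cons (i : ℕ) (L : List ℕ) : cnt π (i :: L) = dg π i + cnt π L := by simp [cnt]

theorem cnt_append (L L' : List ℕ) : cnt π (L ++ L') = cnt π L + cnt π L' := by simp [cnt]

theorem PL_gt (i : ℕ) (a b : LS m j) (n : ℤ) (hn : dg π i < n) : (PL m j π i a b).coeff n = 0 := by
  classical
  unfold PL
  unfold dg at hn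
  rw [Matrix.of_apply]
  by_cases hi : i % 2 = π
  · rw [if_pos hi] at hn
    rw [if_pos hi]
    split_ifs <;>
      simp only [AddMonoidAlgebra.coeff_add, Finsupp.add_apply, one_coeff, T_coeff,
        AddMonoidAlgebra.coeff_zero, Finsupp.zero_apply] <;> (try split_ifs) <;> omega
  · rw [if_neg hi] at hn
    rw [if_neg hi]
    split_ifs <;>
      simp only [AddMonoidAlgebra.coeff_add, Finsupp.add_apply, one_coeff, T_coeff,
        AddMonoidAlgebra.coeff_zero, Finsupp.zero_apply] <;> (try split_ifs) <;> omega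

theorem PL_top (hπ : π < 2) (i : ℕ) (hi : i + 1 < m) (a b : LS m j) :
    ((PL m j π i a b).coeff (dg π i) ≠ 0 → a = b ∨ lf π m a.1 < lf π m b.1) ∧
    (PL m j π i b b).coeff (dg π i) ≤ 1 ∧
    ((PL m j π i b b).coeff (dg π i) ≠ 0 → i % 2 = π → Cup i b) := by
  classical
  unfold PL dg
  rw [Matrix.of_apply, Matrix.of_apply]
  by_cases hC : Cup i b
  · rw [if_pos hC]
    refine ⟨fun h => ?_, ?_, fun _ _ => hC⟩
    · left
      by_contra hab
      rw [if_neg hab] at h
      simp at h
    · rw [if_pos hC, if_pos rfl, T_coeff]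
      split_ifs <;> omega
  · rw [if_neg hC]
    by_cases hπi : i % 2 = π
    · refine ⟨fun h => ?_, ?_, fun h _ => ?_⟩
      · exfalso
        apply h
        rw [if_pos hπi]
        split_ifs <;>
        simp only [AddMonoidAlgebra.coeff_add, Finsupp.add_apply, one_coeff,
          AddMonoidAlgebra.coeff_zero, Finsupp.zero_apply] <;> norm_num
      · rw [if_neg hC, if_pos hπi]
        split_ifs <;>
        simp only [AddMonoidAlgebra.coeff_add, Finsupp.add_apply, one_coeff,
          AddMonoidAlgebra.coeff_zero, Finsupp.zero_apply] <;> norm_num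
      · exfalso
        apply h
        rw [if_neg hC, if_pos hπi]
        split_ifs <;>
        simp only [AddMonoidAlgebra.coeff_add, Finsupp.add_apply, one_coeff,
          AddMonoidAlgebra.coeff_zero, Finsupp.zero_apply] <;> norm_num
    · refine ⟨fun h => ?_, ?_, fun _ h => absurd h hπi⟩
      · by_cases hab : a = b
        · exact Or.inl hab
        · right
          by_cases hab' : ¬ Thr i b ∧ a = mvS i b
          · obtain ⟨hZ, hab'⟩ := hab'
            have h1 := b.2.1.lf_mv_ne hi hZ hC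
            have hπ' : (i+1) % 2 = π := by omega
            rw [hπ'] at h1
            rw [hab', mvS_val hi hZ]
            omega
          · exfalso
            apply h
            rw [if_neg hab, if_neg hab']
            simp
      · rw [if_neg hC, if_pos rfl, if_neg hπi]
        have h1 : ¬ (¬ Thr i b ∧ b = mvS i b) := by
          rintro ⟨hZ, h2⟩
          apply hC
          rw [h2]
          exact cup_mvS hi hZ
        rw [if_neg h1, add_zero, one_coeff, if_pos rfl]

/-- the matrix of a word -/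
noncomputable def XL (m j π : ℕ) (L : List ℕ) : Matrix (LS m j) (LS m j) ℕ[T;T⁻¹] :=
  (L.map (PL m j π)).prod

theorem XL_cons (i : ℕ) (L : List ℕ) : XL m j π (i :: L) = PL m j π i * XL m j π L := by simp [XL]

theorem XL_append (L L' : List ℕ) : XL m j π (L ++ L') = XL m j π L * XL m j π L' := by simp [XL]

theorem XL_gt (L : List ℕ) : ∀ (a b : LS m j) (n : ℤ), cnt π L < n → (XL m j π L a b).coeff n = 0 := by
  induction L with
  | nil =>
    intro a b n hn
    have h1 : cnt π [] = 0 := rfl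
    rw [h1] at hn
    have h2 : XL m j π [] = 1 := rfl
    rw [h2, Matrix.one_apply]
    split_ifs
    · rw [one_coeff, if_neg (by omega)]
    · simp
  | cons i L ih =>
    intro a b n hn
    rw [cnt_cons] at hn
    rw [XL_cons, Matrix.mul_apply, coeff_sum']
    apply Finset.sum_eq_zero
    intro c _
    exact (coeff_mul_bdd (fun k hk => PL_gt i a c k hk) (fun k hk => ih c b k hk)).1 n hn

theorem XL_top (hπ : π < 2) (L : List ℕ) (hL : ∀ i ∈ L, i + 1 < m) : ∀ (a b : LS m j),
    ((XL m j π L a b).coeff (cnt π L) ≠ 0 → a = b ∨ lf π m a.1 < lf π m b.1) ∧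
    (XL m j π L b b).coeff (cnt π L) ≤ 1 ∧
    ((XL m j π L b b).coeff (cnt π L) ≠ 0 → ∀ i ∈ L, i % 2 = π → Cup i b) := by
  induction L with
  | nil =>
    intro a b
    have h1 : cnt π [] = 0 := rfl
    have h2 : XL m j π [] = 1 := rfl
    rw [h1, h2]
    refine ⟨fun h => ?_, ?_, fun _ i hi => by simp at hi⟩
    · left
      by_contra hab
      rw [Matrix.one_apply_ne hab] at h
      simp at h
    · rw [Matrix.one_apply_eq, one_coeff, if_pos rfl]
  | cons i L ih =>
    intro a b
    have ih' := ih (fun k hk => hL k (List.mem_cons_of_mem _ hk))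
    have hi := hL i List.mem_cons_self
    have hsum : ∀ a : LS m j, (XL m j π (i :: L) a b).coeff (cnt π (i :: L)) =
        ∑ c, (PL m j π i a c).coeff (dg π i) * (XL m j π L c b).coeff (cnt π L) := by
      intro a
      rw [XL_cons, Matrix.mul_apply, coeff_sum', cnt_cons]
      refine Finset.sum_congr rfl fun c _ => ?_
      exact (coeff_mul_bdd (fun k hk => PL_gt i a c k hk) (fun k hk => XL_gt L c b k hk)).2
    have hdiag : (XL m j π (i :: L) b b).coeff (cnt π (i :: L)) =
        (PL m j π i b b).coeff (dg π i) * (XL m j π L b b).coeff (cnt π L) := by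
      rw [hsum, Finset.sum_eq_single b]
      · intro c _ hc
        by_contra hne
        obtain ⟨h1, h2⟩ := mul_ne_zero_iff.1 hne
        have h3 := (PL_top hπ i hi b c).1 h1
        have h4 := (ih' c b).1 h2
        rcases h3 with h3 | h3
        · exact hc h3.symm
        · rcases h4 with h4 | h4
          · exact hc h4
          · omega
      · intro h; exact absurd (Finset.mem_univ _) h
    refine ⟨fun h => ?_, ?_, fun h k hk hkπ => ?_⟩
    · rw [hsum] at h
      obtain ⟨c, _, hc⟩ := Finset.exists_ne_zero_of_sum_ne_zero h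
      obtain ⟨h1, h2⟩ := mul_ne_zero_iff.1 hc
      have h3 := (PL_top hπ i hi a c).1 h1
      have h4 := (ih' c b).1 h2
      rcases h3 with h3 | h3
      · rw [h3]; exact h4
      · right
        rcases h4 with h4 | h4
        · rw [← h4]; exact h3
        · omega
    · rw [hdiag]
      exact Nat.mul_le_mul (PL_top hπ i hi b b).2.1 (ih' b b).2.1
    · rw [hdiag] at h
      obtain ⟨h1, h2⟩ := mul_ne_zero_iff.1 h
      rcases List.mem_cons.1 hk with rfl | hk
      · exact (PL_top hπ k hi b b).2.2 h1 hkπ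
      · exact (ih' b b).2.2 h2 k hk hkπ

/-! ### constant paths -/

theorem stay (L : List ℕ) (b : LS m j) (hb : ∀ i ∈ L, (i % 2 = π → Cup i b) ∧ (i % 2 ≠ π → ¬ Cup i b)) :
    (XL m j π L b b).coeff (cnt π L) ≠ 0 := by
  classical
  induction L with
  | nil =>
    have h1 : cnt π [] = 0 := rfl
    have h2 : XL m j π [] = 1 := rfl
    rw [h1, h2, Matrix.one_apply_eq, one_coeff, if_pos rfl]
    norm_num
  | cons i L ih =>
    rw [XL_cons, cnt_cons]
    refine mul_pos' (b := b) ?_ (ih (fun k hk => hb k (List.mem_cons_of_mem _ hk)))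
    obtain ⟨h1, h2⟩ := hb i List.mem_cons_self
    unfold PL dg
    rw [Matrix.of_apply]
    by_cases hi : i % 2 = π
    · rw [if_pos (h1 hi), if_pos rfl, if_pos hi, if_pos hi, T_coeff, if_pos rfl]
      norm_num
    · rw [if_neg (h2 hi), if_pos rfl, if_neg hi, AddMonoidAlgebra.coeff_add, Finsupp.add_apply,
        one_coeff, if_pos rfl]
      omega

theorem go {i : ℕ} {b : LS m j} (h1 : ¬ Cup i b) (h2 : ¬ Thr i b) :
    (PL m j π i (mvS i b) b).coeff 0 ≠ 0 := by
  classical
  unfold PL
  rw [Matrix.of_apply, if_neg h1]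
  have h3 : ¬ Thr i b ∧ mvS i b = mvS i b := ⟨h2, rfl⟩
  rw [if_pos h3, AddMonoidAlgebra.coeff_add, Finsupp.add_apply]
  have h4 : (1 : ℕ[T;T⁻¹]).coeff 0 = 1 := by rw [one_coeff, if_pos rfl]
  rw [h4]
  omega

/-! ### the state with all cups of one parity -/

/-- the state with all cups of the parity `π` -/
def bz (m π x : ℕ) : ℕ :=
  if x % 2 = π ∧ x + 1 < m then x + 1
  else if x % 2 ≠ π ∧ 1 ≤ x ∧ x < m then x - 1
  else if m % 2 = 0 ∧ x = 0 then m - 1
  else if m % 2 = 0 ∧ x = m - 1 then 0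
  else x

theorem isLS_bz (hm : 3 ≤ m) (hπ : π < 2) : IsLS m (bz m π) := by
  refine ⟨?_, ?_, ?_⟩
  · intro x
    unfold bz
    grind
  · intro x hx
    unfold bz
    grind
  · intro x y hxy hyb
    unfold bz at *
    split_ifs at hyb ⊢ <;> omega

theorem nf_bz (hm : 3 ≤ m) (hπ : π < 2) : nf m (bz m π) = m % 2 := by
  unfold nf
  by_cases h : m % 2 = 0
  · rw [h, Finset.card_eq_zero, Finset.filter_eq_empty_iff]
    intro x hx
    rw [mem_range] at hx
    unfold bz
    grind
  · have h1 : m % 2 = 1 := by omega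
    rw [h1, Finset.card_eq_one]
    refine ⟨if π = 0 then m - 1 else 0, ?_⟩
    ext x
    simp only [mem_filter, mem_range, mem_singleton]
    unfold bz
    grind

/-- the state with all cups of one parity -/
def b0 (hm : 3 ≤ m) (hπ : π < 2) : LS m (m % 2) := ⟨bz m π, isLS_bz hm hπ, nf_bz hm hπ⟩

theorem b0_cup (hm : 3 ≤ m) (hπ : π < 2) (i : ℕ) (hi : i + 1 < m) (h : i % 2 = π) :
    Cup i (b0 hm hπ) := by
  show bz m π i = i + 1
  unfold bz
  rw [if_pos ⟨h, hi⟩]

theorem b0_not_cup (hm : 3 ≤ m) (hπ : π < 2) (i : ℕ) (hi : i + 1 < m) (h : i % 2 ≠ π) :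
    ¬ Cup i (b0 hm hπ) := by
  show ¬ bz m π i = i + 1
  unfold bz
  grind

theorem b0_move (hm : 3 ≤ m) (hπ : π < 2) (i y z : ℕ) (hi : i + 1 < m) (hy : y + 1 < m)
    (hz : z + 1 < m) (h1 : i % 2 = π) (h2 : y % 2 ≠ π) (h3 : z % 2 ≠ π)
    (h4 : i = y + 1 ∨ y = i + 1) (h5 : ¬ (z = i + 1 ∨ i = z + 1)) (h6 : ¬ Thr y (b0 hm hπ)) :
    ¬ Cup z (mvS y (b0 hm hπ)) := by
  unfold Cup
  rw [mvS_val hy h6]
  show ¬ mv y (y+1) (bz m π) z = z + 1
  unfold mv bz
  grind (splits := 30)

end Pool.Agent.H970.TA
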