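import Pool.Agent.H970_TA.Main
import Pool.Agent.TH561.PB.Twist
import Pool.Agent.W639.RB.Knots

/-!
# Twisted alternating braids: the bracket is not a unit
-/

set_option autoImplicit false

namespace Pool.Agent.H970.TA

open Finset Pool.Agent.H891R2.Jones Pool.Agent.TH561 Pool.Agent.W639.RB LaurentPolynomial

/-! ### the mirror image -/

theorem invert_dl : invert dl = dl := by
  unfold dl
  rw [map_sub, map_neg, invert_T, invert_T]
  simp only [neg_neg]
  ring

theorem invert_chi (m j : ℕ) (W : List (Bool × ℕ)) :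
    invert (chi m j W) = chi m j (W.map flipL) := by
  have h0 : ∀ f : ℤ[T;T⁻¹], invert f = (invert : ℤ[T;T⁻¹] ≃ₐ[ℤ] ℤ[T;T⁻¹]).toRingEquiv.toRingHom f :=
    fun _ => rfl
  unfold chi
  rw [h0, map_trace', map_list_prod, List.map_map, List.map_map]
  congr 2
  apply List.map_congr_left
  intro x _
  rw [Function.comp_apply, Function.comp_apply]
  ext a b
  rw [RingHom.mapMatrix_apply, Matrix.map_apply, ← h0]
  unfold LM EE
  rw [Matrix.add_apply, Matrix.add_apply, Matrix.smul_apply, Matrix.smul_apply, Matrix.smul_apply,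
    Matrix.smul_apply, Matrix.one_apply, MM_apply, MM_apply, map_add, smul_eq_mul, smul_eq_mul,
    smul_eq_mul, smul_eq_mul, map_mul, map_mul, invert_T, invert_T]
  have hs : sgn (flipL x) = -sgn x := by
    obtain ⟨b, i⟩ := x
    cases b <;> simp [sgn, flipL]
  rw [hs]
  have h1 : invert (if a = b then (1 : ℤ[T;T⁻¹]) else 0) = if a = b then 1 else 0 := by
    split_ifs <;> simp
  have h2 : invert (if a = mvS x.2 b then cf dl x.2 b else 0) =
      if a = mvS (flipL x).2 b then cf dl (flipL x).2 b else 0 := by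
    have : (flipL x).2 = x.2 := rfl
    rw [this]
    unfold cf
    split_ifs <;> simp [invert_dl]
  rw [h1, h2]

theorem flip_flip (W : List (Bool × ℕ)) : (W.map flipL).map flipL = W := by
  rw [List.map_map]
  conv_rhs => rw [← List.map_id W]
  apply List.map_congr_left
  intro x _
  obtain ⟨b, i⟩ := x
  simp [flipL]

/-- the right hand side of the bracket formula -/
noncomputable def rs (m : ℕ) (W : List (Bool × ℕ)) (a : ℤ) : ℤ[T;T⁻¹] :=
  ∑ j ∈ range (m+1), U dl j * (T (a * ((j : ℤ) * (j + 2) - 3 * m)) * chi m j W)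

theorem invert_rs (m : ℕ) (W : List (Bool × ℕ)) (a : ℤ) :
    invert (rs m W a) = rs m (W.map flipL) (-a) := by
  have h0 : ∀ f : ℤ[T;T⁻¹], invert f = (invert : ℤ[T;T⁻¹] ≃ₐ[ℤ] ℤ[T;T⁻¹]).toRingEquiv.toRingHom f :=
    fun _ => rfl
  unfold rs
  rw [map_sum]
  refine Finset.sum_congr rfl fun j _ => ?_
  rw [map_mul, map_mul, invert_T, invert_chi]
  congr 2
  · rw [h0, map_U, ← h0, invert_dl]
  · congr 1
    ring

theorem rs_eq_ts (m π k : ℕ) (hπ : π < 2) (W : List (Bool × ℕ)) (hW : ∀ x ∈ W, x.2 + 1 < m)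
    (hW' : ∀ x ∈ W, (x.1 = true ↔ x.2 % 2 = π)) :
    rs m W k = ts m π k (expo W) (W.map Prod.snd) := by
  unfold rs ts tm tw XL
  refine Finset.sum_congr rfl fun j _ => ?_
  rw [chi_eq m j π hπ W hW hW', List.map_map]
  rfl

/-- the signs of the letters alternate -/
def Alt (W : List (Bool × ℕ)) : Prop := ∃ π, π < 2 ∧ ∀ x ∈ W, (x.1 = true ↔ x.2 % 2 = π)

theorem Alt.flip {W : List (Bool × ℕ)} (h : Alt W) : Alt (W.map flipL) := by
  obtain ⟨π, hπ, h⟩ := h
  refine ⟨1 - π, by omega, fun x hx => ?_⟩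
  rw [List.mem_map] at hx
  obtain ⟨y, hy, rfl⟩ := hx
  have := h y hy
  obtain ⟨b, i⟩ := y
  simp only [flipL] at this ⊢
  cases b
  · simp only [Bool.false_eq_true, false_iff, Bool.not_false, true_iff] at this ⊢
    omega
  · simp only [true_iff, Bool.not_true, Bool.false_eq_true, false_iff] at this ⊢
    omega

theorem rs_ne {m : ℕ} (hm : 3 ≤ m) (W : List (Bool × ℕ)) (hW : ∀ x ∈ W, x.2 + 1 < m) (hA : Alt W)
    (hall : ∀ i, i + 1 < m → ∃ x ∈ W, x.2 = i) (a : ℤ) (ha : a ≠ 0) (ε C : ℤ) :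
    rs m W a ≠ ε • (T C + T (C - 4)) := by
  have pos : ∀ (W : List (Bool × ℕ)), (∀ x ∈ W, x.2 + 1 < m) → Alt W →
      (∀ i, i + 1 < m → ∃ x ∈ W, x.2 = i) → ∀ (k : ℕ), 1 ≤ k → ∀ C : ℤ,
      rs m W k ≠ ε • (T C + T (C - 4)) := by
    intro W hW hA hall k hk C
    obtain ⟨π, hπ, hA⟩ := hA
    rw [rs_eq_ts m π k hπ W hW hA]
    apply ts_ne hm hπ k hk
    · intro i hi
      rw [List.mem_map] at hi
      obtain ⟨x, hx, rfl⟩ := hi
      exact hW x hx
    · intro i hi
      rw [List.mem_map]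
      obtain ⟨x, hx, hx'⟩ := hall i hi
      exact ⟨x, hx, hx'⟩
  rcases lt_or_gt_of_ne ha with h | h
  · intro heq
    have h1 : a = -((a.natAbs : ℕ) : ℤ) := by omega
    have h2 := congrArg invert heq
    rw [invert_rs] at h2
    have h3 : -a = ((a.natAbs : ℕ) : ℤ) := by omega
    rw [h3] at h2
    refine pos (W.map flipL) ?_ hA.flip ?_ a.natAbs (by omega) (4 - C) ?_
    · intro x hx
      rw [List.mem_map] at hx
      obtain ⟨y, hy, rfl⟩ := hx
      exact hW y hy
    · intro i hi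
      obtain ⟨x, hx, hx'⟩ := hall i hi
      exact ⟨flipL x, List.mem_map.2 ⟨x, hx, rfl⟩, hx'⟩
    · rw [h2, map_smul, map_add, invert_T, invert_T, add_comm]
      congr 3 <;> ring
  · have h1 : a = ((a.natAbs : ℕ) : ℤ) := by omega
    rw [h1]
    exact pos W hW hA hall a.natAbs (by omega) C

theorem bracket_ne {m : ℕ} (hm : 3 ≤ m) (W : List (Bool × ℕ)) (hW : ∀ x ∈ W, x.2 + 1 < m)
    (hA : Alt W) (hall : ∀ i, i + 1 < m → ∃ x ∈ W, x.2 = i) (a : ℤ) (ha : a ≠ 0) (ε n : ℤ) :
    ((draw (braidClosure m) W).twisted a).bracket ≠ ε • T n := by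
  intro h
  apply rs_ne hm W hW hA hall a ha (-ε) (n+2)
  unfold rs
  rw [← twisted_formula (by omega) W hW a, h]
  unfold dl
  rw [mul_smul_comm, sub_mul, neg_mul, ← T_add, ← T_add, neg_smul, smul_sub, smul_neg, smul_add]
  have e1 : (2 : ℤ) + n = n + 2 := by ring
  have e2 : (-2 : ℤ) + n = n + 2 - 4 := by ring
  rw [e1, e2]
  ring

/-- words whose closure is a knot contain all generators -/
theorem all_of_knot {m l : ℕ} (w : Fin l → Letter m) (h : ∀ i j : Fin m, (perm w).SameCycle i j)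
    (g : Fin (m-1)) : ∃ i, (w i).2 = g := by
  by_contra hcon
  push Not at hcon
  have hm : (g : ℕ) + 1 < m := by omega
  -- the set `{x | x ≤ g}` is preserved
  have key : ∀ (L : List (Letter m)), (∀ x ∈ L, x.2 ≠ g) → ∀ y : Fin m,
      (((L.map tr).prod y : Fin m) : ℕ) ≤ g ↔ (y : ℕ) ≤ g := by
    intro L
    induction L with
    | nil => intro _ y; simp
    | cons x L ih =>
      intro hL y
      have hx := hL x List.mem_cons_self
      have ih' := ih (fun z hz => hL z (List.mem_cons_of_mem _ hz)) y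
      rw [List.map_cons, List.prod_cons, Equiv.Perm.mul_apply, ← ih']
      generalize (L.map tr).prod y = z
      have hxg : (x.2 : ℕ) ≠ g := fun h => hx (Fin.ext h)
      unfold tr
      rw [Equiv.swap_apply_def]
      split_ifs with h1 h2
      · subst h1; simp only; omega
      · subst h2; simp only; omega
      · rfl
  have hinv : ∀ y : Fin m, ((perm w y : Fin m) : ℕ) ≤ g ↔ (y : ℕ) ≤ g := by
    intro y
    rw [perm_eq]
    apply key
    intro x hx
    rw [List.mem_ofFn] at hx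
    obtain ⟨i, rfl⟩ := hx
    exact hcon i
  have hpow : ∀ (n : ℕ) (y : Fin m), (((perm w ^ n) y : Fin m) : ℕ) ≤ g ↔ (y : ℕ) ≤ g := by
    intro n
    induction n with
    | zero => intro y; simp
    | succ n ih => intro y; rw [pow_succ, Equiv.Perm.mul_apply, ih, hinv]
  obtain ⟨n, hn⟩ := (h ⟨0, by omega⟩ ⟨m-1, by omega⟩).exists_nat_pow_eq
  have h1 := hpow n ⟨0, by omega⟩
  rw [hn] at h1
  simp only at h1
  omega

end Pool.Agent.H970.TA
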