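import Pool.Agent.H970_TA.Scalar

/-!
# The bracket of the closure of a braid followed by full twists, by the traces on the link states
-/

set_option autoImplicit false

namespace Pool.Agent.H970.TA

open Finset Pool.Agent.H891R2.Jones Pool.Agent.TH561 Pool.Agent.W639.RB LaurentPolynomial

/-- the matrix of a letter -/
noncomputable def LM (m j : ℕ) (x : Bool × ℕ) : Matrix (LS m j) (LS m j) ℤ[T;T⁻¹] :=
  (T (sgn x) : ℤ[T;T⁻¹]) • (1 : Matrix (LS m j) (LS m j) ℤ[T;T⁻¹]) +
    (T (-sgn x) : ℤ[T;T⁻¹]) • EE m j dl x.2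

/-- the trace of a braid word on the link states with `j` strands running to infinity -/
noncomputable def chi (m j : ℕ) (W : List (Bool × ℕ)) : ℤ[T;T⁻¹] :=
  Matrix.trace ((W.map (LM m j)).prod)

theorem map_EE {R S : Type*} [CommSemiring R] [CommSemiring S] (f : R →+* S) (m j i : ℕ) (d : R) :
    f.mapMatrix (EE m j d i) = EE m j (f d) i := by
  ext a b
  rw [RingHom.mapMatrix_apply, Matrix.map_apply]
  unfold EE
  rw [MM_apply, MM_apply, apply_ite f, map_zero]
  unfold cf
  rw [apply_ite f, apply_ite f, map_zero, map_one]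

theorem map_trace' {α R S : Type*} [Fintype α] [DecidableEq α] [CommSemiring R] [CommSemiring S]
    (f : R →+* S) (X : Matrix α α R) : f (Matrix.trace X) = Matrix.trace (f.mapMatrix X) := by
  unfold Matrix.trace
  rw [map_sum]
  rfl

theorem ev_chi (N : ℕ) (hN : 3 ≤ N) (m j : ℕ) (W : List (Bool × ℕ)) :
    ev N hN (chi m j W) = Matrix.trace (MG (Ar N) (EE m j (N : ℂ)) W) := by
  unfold chi MG
  rw [map_trace', map_list_prod, List.map_map]
  congr 1
  congr 1
  apply List.map_congr_left
  intro x _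
  rw [Function.comp_apply, LM, map_add]
  have h2 : ∀ (c : ℤ[T;T⁻¹]) (X : Matrix (LS m j) (LS m j) ℤ[T;T⁻¹]),
      (ev N hN).mapMatrix (c • X) = ev N hN c • (ev N hN).mapMatrix X := by
    intro c X
    ext a b
    simp
  rw [h2, h2, map_one, map_EE, ev_dl, ev_T, ev_T]

theorem MG_TW {R : Type*} [Ring R] [Algebra ℂ R] (N : ℕ) (e : ℕ → R) (b : Bool) (n k a : ℕ) :
    MG (Ar N) e (TW b n k a) = (FF (sg (AA N b) e) n k) ^ a := by
  unfold TW
  induction a with
  | zero => simp [MG]
  | succ a ih =>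
    rw [List.replicate_succ, List.flatten_cons, MG_append, ih, pow_succ']
    congr 1
    unfold MG
    rw [List.map_map, ← twistWord_prod]
    congr 1
    apply List.map_congr_left
    intro i _
    unfold sg AA sgn
    cases b <;> simp

theorem twisted_formula {m : ℕ} (hm : 0 < m) (W : List (Bool × ℕ)) (hW : ∀ x ∈ W, x.2 + 1 < m)
    (a : ℤ) : dl * ((draw (braidClosure m) W).twisted a).bracket =
      ∑ j ∈ range (m+1), U dl j * (T (a * ((j : ℤ) * (j + 2) - 3 * m)) * chi m j W) := by
  apply eq_of_ev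
  intro N hN
  rw [map_mul, ev_dl, map_sum]
  have : Nonempty ((draw (braidClosure m) W).twist a).P :=
    ⟨((draw (braidClosure m) W).twist a).lower ⟨0, hm⟩⟩
  unfold Outer.twisted
  rw [ev_bracket N hN, Z_close, Zg_twist (Ar_ne N hN) (Ar_d N hN), Zg_draw _ _ hW]
  set P := (FF (sg (AA N (decide (0 ≤ a))) (KK m N)) m 0) ^ a.natAbs with hP
  have h1 : Zg (Ar N) N (braidClosure m) (rho (Ar N) m N W
      (((twistUnit (Ar_ne N hN) m N (Ar_d N hN) ^ a :
        (Module.End ℂ ((Fin m → Fin N) → ((Fin m → Fin N) → ℂ)))ˣ) :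
        Module.End ℂ ((Fin m → Fin N) → ((Fin m → Fin N) → ℂ))) (fun x y => ind (x = y)))) =
      Matrix.trace (MR (Ar N) m N W * P) := by
    have h2 := rho_of (m := m) (N := N) (Ar N) W hW
      ((((twistUnit (Ar_ne N hN) m N (Ar_d N hN) ^ a :
        (Module.End ℂ ((Fin m → Fin N) → ((Fin m → Fin N) → ℂ)))ˣ) :
        Module.End ℂ ((Fin m → Fin N) → ((Fin m → Fin N) → ℂ))) (fun x y => ind (x = y))))
    rw [Impl.twist hN a, delta_eq, mul_one] at h2
    rw [← h2]
    unfold Zg Matrix.trace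
    refine Finset.sum_congr rfl fun u _ => ?_
    unfold WW braidClosure
    simp
  rw [h1, hP, ← MR_TW, ← MR_append, trace_MR m N (by omega) (Ar N) _ (by
    intro x hx
    rcases List.mem_append.1 hx with hx | hx
    · exact hW x hx
    · exact TW_mem _ m 0 _ (by omega) x hx)]
  refine Finset.sum_congr rfl fun j _ => ?_
  rw [map_mul, map_mul, map_U, ev_dl, ev_T, ev_chi, MG_append, MG_TW,
    FF_scalar (AA_ne N hN _) (AA_d N hN _) (by
      have : N ≠ 0 := by omega
      exact Nat.cast_ne_zero.2 this)]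
  congr 1
  rw [smul_pow, one_pow, mul_smul_comm, mul_one, Matrix.trace_smul, smul_eq_mul]
  congr 1
  rw [← zpow_natCast, ← zpow_mul]
  unfold AA
  by_cases ha : 0 ≤ a
  · rw [if_pos (by simpa using ha)]
    congr 1
    have : (a.natAbs : ℤ) = a := by omega
    rw [this]; ring
  · rw [if_neg (by simpa using ha), inv_zpow']
    congr 1
    have : (a.natAbs : ℤ) = -a := by omega
    rw [this]; ring

end Pool.Agent.H970.TA
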