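import Pool.Agent.H970_TA.Moves

/-!
# Link states
-/

set_option autoImplicit false

namespace Pool.Agent.H970.TA

/-- link states on the points `0, …, n - 1`: the points are joined in pairs by disjoint arcs above the
line, the fixed points are the ends of the strands that run upwards to infinity -/
structure IsLS (n : ℕ) (b : ℕ → ℕ) : Prop where
  inv : ∀ x, b (b x) = x
  out : ∀ x, n ≤ x → b x = x
  nc : ∀ x y, x < y → y < b x → x < b y ∧ b y < b x ∧ b y ≠ y

theorem IsLS.lt {n : ℕ} {b : ℕ → ℕ} (h : IsLS n b) {x : ℕ} (hx : x < n) : b x < n := by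
  have h1 := h.inv x
  have h2 := h.out (b x)
  grind

theorem IsLS.of_mv {n : ℕ} {b : ℕ → ℕ} (h : IsLS n b) {i : ℕ} (hi : i + 1 < n)
    (hC : b i ≠ i + 1) : IsLS n (mv i (i+1) b) := by
  have hinv := h.inv
  have hnc := h.nc
  refine ⟨mv_inv h.inv (by omega), ?_, ?_⟩
  · intro x hx
    have h1 := h.lt hi
    have h2 := h.lt (show i < n by omega)
    have h3 := h.out x hx
    unfold mv
    grind
  · intro x y hxy hyb
    have a1 := hnc x y
    have a2 := hnc i (i+1)
    have a3 := hnc (b i) i
    have a4 := hnc (b (i+1)) (i+1)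
    unfold mv at *
    grind (splits := 40)

open Finset in
theorem IsLS.parity_lt {n : ℕ} {b : ℕ → ℕ} (h : IsLS n b) {x : ℕ} (hx : x < b x) :
    (x + b x) % 2 = 1 := by
  have h1 : ∑ y ∈ Ioo x (b x), (1 : ZMod 2) = 0 := by
    apply Finset.sum_involution (fun y _ => b y)
    · intro y _; decide
    · intro y hy _
      rw [mem_Ioo] at hy
      exact (h.nc x y hy.1 hy.2).2.2
    · intro y hy
      rw [mem_Ioo] at hy ⊢
      have := h.nc x y hy.1 hy.2
      exact ⟨this.1, this.2.1⟩
    · intro y _
      exact h.inv y
  rw [Finset.sum_const, nsmul_eq_mul, mul_one, Nat.card_Ioo, ZMod.natCast_eq_zero_iff] at h1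
  omega

theorem IsLS.parity {n : ℕ} {b : ℕ → ℕ} (h : IsLS n b) {x : ℕ} (hx : b x ≠ x) :
    (x + b x) % 2 = 1 := by
  rcases lt_or_gt_of_ne hx with h1 | h1
  · have h2 := h.parity_lt (x := b x) (by rw [h.inv]; exact h1)
    rw [h.inv] at h2
    omega
  · exact h.parity_lt h1

open Finset in
/-- the number of strands running to infinity -/
def nf (n : ℕ) (b : ℕ → ℕ) : ℕ := ((range n).filter (fun x => b x = x)).card

open Finset in
/-- the number of left end points of the parity `π` -/
def lf (π n : ℕ) (b : ℕ → ℕ) : ℕ := ((range n).filter (fun x => x % 2 = π ∧ x ≤ b x)).card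

open Finset in
theorem IsLS.nf_mv {n : ℕ} {b : ℕ → ℕ} (h : IsLS n b) {i : ℕ} (hi : i + 1 < n)
    (hZ : ¬ (b i = i ∧ b (i+1) = i+1)) (hC : b i ≠ i + 1) : nf n (mv i (i+1) b) = nf n b := by
  have hinv := h.inv
  unfold nf
  by_cases h1 : b i = i
  · have h2 : b (i+1) ≠ i+1 := fun h2 => hZ ⟨h1, h2⟩
    have h3 := h.lt hi
    have h4 : (range n).filter (fun x => mv i (i+1) b x = x) =
        insert (b (i+1)) (((range n).filter (fun x => b x = x)).erase i) := by
      ext x
      simp only [mem_filter, mem_range, mem_insert, mem_erase]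
      unfold mv
      grind
    rw [h4, card_insert_of_notMem, card_erase_of_mem]
    · have : 0 < ((range n).filter (fun x => b x = x)).card := by
        apply Finset.card_pos.2
        exact ⟨i, by simp; omega⟩
      omega
    · simp; omega
    · simp only [mem_erase, mem_filter, mem_range]
      grind
  · by_cases h2 : b (i+1) = i+1
    · have h3 := h.lt (show i < n by omega)
      have h4 : (range n).filter (fun x => mv i (i+1) b x = x) =
          insert (b i) (((range n).filter (fun x => b x = x)).erase (i+1)) := by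
        ext x
        simp only [mem_filter, mem_range, mem_insert, mem_erase]
        unfold mv
        grind
      rw [h4, card_insert_of_notMem, card_erase_of_mem]
      · have : 0 < ((range n).filter (fun x => b x = x)).card := by
          apply Finset.card_pos.2
          exact ⟨i+1, by simp; omega⟩
        omega
      · simp; omega
      · simp only [mem_erase, mem_filter, mem_range]
        grind
    · congr 1
      ext x
      simp only [mem_filter, mem_range]
      unfold mv
      grind

open Finset in
theorem IsLS.lf_mv_eq {n : ℕ} {b : ℕ → ℕ} (h : IsLS n b) {i : ℕ} (hi : i + 1 < n)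
    (hZ : ¬ (b i = i ∧ b (i+1) = i+1)) (hC : b i ≠ i + 1) :
    lf (i % 2) n (mv i (i+1) b) = lf (i % 2) n b + 1 := by
  have hinv := h.inv
  have p1 := h.parity (x := i)
  have p2 := h.parity (x := i+1)
  have n1 := h.nc i (i+1)
  have n2 := h.nc (b i) i
  have n3 := h.nc (b (i+1)) (i+1)
  have n4 := h.nc (b (i+1)) i
  have l1 := h.lt hi
  have l2 := h.lt (show i < n by omega)
  unfold lf
  by_cases h1 : b i < i
  · have h4 : (range n).filter (fun x => x % 2 = i % 2 ∧ x ≤ mv i (i+1) b x) =
        insert i ((range n).filter (fun x => x % 2 = i % 2 ∧ x ≤ b x)) := by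
      ext x
      simp only [mem_filter, mem_range, mem_insert]
      unfold mv
      grind
    rw [h4, card_insert_of_notMem]
    simp only [mem_filter, mem_range]
    grind
  · have h4 : (range n).filter (fun x => x % 2 = i % 2 ∧ x ≤ mv i (i+1) b x) =
        insert (b (i+1)) ((range n).filter (fun x => x % 2 = i % 2 ∧ x ≤ b x)) := by
      ext x
      simp only [mem_filter, mem_range, mem_insert]
      unfold mv
      grind
    rw [h4, card_insert_of_notMem]
    simp only [mem_filter, mem_range]
    grind

open Finset in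
theorem IsLS.lf_mv_ne {n : ℕ} {b : ℕ → ℕ} (h : IsLS n b) {i : ℕ} (hi : i + 1 < n)
    (hZ : ¬ (b i = i ∧ b (i+1) = i+1)) (hC : b i ≠ i + 1) :
    lf ((i+1) % 2) n (mv i (i+1) b) + 1 = lf ((i+1) % 2) n b := by
  have hinv := h.inv
  have p1 := h.parity (x := i)
  have p2 := h.parity (x := i+1)
  have n1 := h.nc i (i+1)
  have n2 := h.nc (b i) i
  have n3 := h.nc (b (i+1)) (i+1)
  have n4 := h.nc (b (i+1)) i
  have l1 := h.lt hi
  have l2 := h.lt (show i < n by omega)
  unfold lf
  by_cases h1 : i + 1 ≤ b (i+1)
  · have h4 : (range n).filter (fun x => x % 2 = (i+1) % 2 ∧ x ≤ b x) =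
        insert (i+1) ((range n).filter (fun x => x % 2 = (i+1) % 2 ∧ x ≤ mv i (i+1) b x)) := by
      ext x
      simp only [mem_filter, mem_range, mem_insert]
      unfold mv
      grind
    rw [h4, card_insert_of_notMem]
    simp only [mem_filter, mem_range]
    unfold mv
    grind
  · have h4 : (range n).filter (fun x => x % 2 = (i+1) % 2 ∧ x ≤ b x) =
        insert (b i) ((range n).filter (fun x => x % 2 = (i+1) % 2 ∧ x ≤ mv i (i+1) b x)) := by
      ext x
      simp only [mem_filter, mem_range, mem_insert]
      unfold mv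
      grind
    rw [h4, card_insert_of_notMem]
    simp only [mem_filter, mem_range]
    unfold mv
    grind

end Pool.Agent.H970.TA
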