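import Pool.Agent.H970_TA.Second

/-!
# The bracket of the closure of an alternating braid followed by full twists
-/

set_option autoImplicit false

namespace Pool.Agent.H970.TA

open Finset Pool.Agent.H891R2.Jones Pool.Agent.TH561 Pool.Agent.W639.RB LaurentPolynomial

/-! ### the Chebyshev polynomials of the loop value -/

theorem U_dl : ∀ j : ℕ, U dl j = (-1) ^ j * ∑ l ∈ range (j+1), (T (2 * (j : ℤ) - 4 * l) : ℤ[T;T⁻¹])
  | 0 => by simp [U]
  | 1 => by
    rw [U, dl, Finset.sum_range_succ, Finset.sum_range_succ, Finset.sum_range_zero]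
    norm_num
    ring
  | j+2 => by
    rw [U, U_dl (j+1), U_dl j]
    have h1 : ∑ l ∈ range (j+1+1), (T (2 * ((j+1+1 : ℕ) : ℤ) - 4 * l) : ℤ[T;T⁻¹]) =
        ∑ l ∈ range (j+1+1), T 2 * T (2 * ((j+1 : ℕ) : ℤ) - 4 * l) := by
      refine Finset.sum_congr rfl fun l _ => ?_
      rw [← T_add]; congr 1; push_cast; ring
    have h2 : ∑ l ∈ range (j+1), (T (2 * (j : ℤ) - 4 * l) : ℤ[T;T⁻¹]) =
        ∑ l ∈ range (j+1), T (-2) * T (2 * ((j+1 : ℕ) : ℤ) - 4 * l) := by
      refine Finset.sum_congr rfl fun l _ => ?_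
      rw [← T_add]; congr 1; push_cast; ring
    have h3 : (T (2 * ((j+1+1 : ℕ) : ℤ) - 4 * ((j+1+1 : ℕ) : ℤ)) : ℤ[T;T⁻¹]) =
        T (-2) * T (2 * ((j+1 : ℕ) : ℤ) - 4 * ((j+1 : ℕ) : ℤ)) := by
      rw [← T_add]; congr 1; push_cast; ring
    have e : range (j + 2 + 1) = range (j+1+1+1) := rfl
    rw [e, Finset.sum_range_succ _ (j+1+1), h1, h2, h3, ← Finset.mul_sum, ← Finset.mul_sum,
      Finset.sum_range_succ _ (j+1)]
    unfold dl
    have e2 : (-1 : ℤ[T;T⁻¹]) ^ (j+2) = (-1) ^ j := by rw [pow_add]; norm_num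
    have e3 : (-1 : ℤ[T;T⁻¹]) ^ (j+1) = -(-1) ^ j := by rw [pow_add]; norm_num
    rw [e2, e3]
    ring

section coeffs

variable {m π : ℕ}

/-- the summand of `j` -/
noncomputable def tm (m π : ℕ) (k : ℕ) (e : ℤ) (L : List ℕ) (j : ℕ) : ℤ[T;T⁻¹] :=
  U dl j * (T ((k : ℤ) * ((j : ℤ) * (j + 2) - 3 * m)) * (T e * phi (tw m j π L)))

/-- the base exponent -/
def bs (m k : ℕ) (e : ℤ) : ℤ :=
  2 * ((m % 2 : ℕ) : ℤ) + k * (((m % 2 : ℕ) : ℤ) * (((m % 2 : ℕ) : ℤ) + 2) - 3 * m) + e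

theorem tm_coeff (k : ℕ) (e : ℤ) (L : List ℕ) (μ : ℕ) (n : ℤ) :
    (tm m π k e L (m % 2 + 2 * μ)).coeff (bs m k e - 4 * n) =
      (-1) ^ (m % 2) * ∑ l ∈ range (m % 2 + 2 * μ + 1),
        (Int.negOnePow (n - l + μ + k * (μ * (μ + ((m % 2 : ℕ) : ℤ) + 1))) : ℤ) *
        ((tw m (m % 2 + 2 * μ) π L).coeff (n - l + μ + k * (μ * (μ + ((m % 2 : ℕ) : ℤ) + 1))) : ℤ) := by
  unfold tm
  rw [U_dl, pow_add, pow_mul]
  norm_num only [one_pow, mul_one, neg_sq]
  rw [mul_assoc, Finset.sum_mul]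
  have h1 : ∀ f : ℤ[T;T⁻¹], ∀ x : ℤ, (((-1) ^ (m % 2) * f : ℤ[T;T⁻¹])).coeff x =
      (-1) ^ (m % 2) * f.coeff x := by
    intro f x
    rcases Nat.mod_two_eq_zero_or_one m with h | h
    · rw [h]; simp
    · rw [h]; simp
  rw [h1, AddMonoidAlgebra.coeff_sum, Finset.sum_apply']
  congr 1
  refine Finset.sum_congr rfl fun l _ => ?_
  rw [coeff_T_mul, coeff_T_mul, coeff_T_mul, ← coeff_phi]
  congr 1
  unfold bs
  push_cast
  ring

theorem tm_zero (k : ℕ) (e : ℤ) (L : List ℕ) (j : ℕ) (h : m % 2 ≠ j % 2) : tm m π k e L j = 0 := by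
  unfold tm
  rw [tw_parity j L h, map_zero, mul_zero, mul_zero, mul_zero]

theorem tm_vanish (k : ℕ) (e : ℤ) (L : List ℕ) (μ : ℕ) (n : ℤ)
    (h : cnt π L < n - (m % 2 + 2 * μ : ℕ) + μ + k * (μ * (μ + ((m % 2 : ℕ) : ℤ) + 1))) :
    (tm m π k e L (m % 2 + 2 * μ)).coeff (bs m k e - 4 * n) = 0 := by
  rw [tm_coeff]
  rw [Finset.sum_eq_zero, mul_zero]
  intro l hl
  rw [Finset.mem_range] at hl
  rw [tw_gt L _ (by push_cast at h ⊢; omega)]
  simp

/-- the sum of all summands -/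
noncomputable def ts (m π : ℕ) (k : ℕ) (e : ℤ) (L : List ℕ) : ℤ[T;T⁻¹] :=
  ∑ j ∈ range (m+1), tm m π k e L j

/-- only the summands with few strands to infinity contribute to the extreme coefficients -/
theorem ts_coeff (k : ℕ) (e : ℤ) (L : List ℕ) (n : ℤ) (M : ℕ) (hM : m % 2 + 2 * M ≤ m)
    (h : ∀ μ : ℕ, M < μ →
      cnt π L < n - (m % 2 + 2 * μ : ℕ) + μ + k * (μ * (μ + ((m % 2 : ℕ) : ℤ) + 1))) :
    (ts m π k e L).coeff (bs m k e - 4 * n) =
      ∑ μ ∈ range (M+1), (tm m π k e L (m % 2 + 2 * μ)).coeff (bs m k e - 4 * n) := by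
  unfold ts
  rw [AddMonoidAlgebra.coeff_sum, Finset.sum_apply']
  symm
  apply Finset.sum_bij_ne_zero (fun μ _ _ => m % 2 + 2 * μ)
  · intro μ hμ _
    rw [Finset.mem_range] at hμ ⊢
    omega
  · intro μ _ _ μ' _ _ h'
    omega
  · intro j hj hne
    rw [Finset.mem_range] at hj
    by_cases hpar : m % 2 = j % 2
    · obtain ⟨μ, rfl⟩ : ∃ μ, j = m % 2 + 2 * μ := ⟨j / 2, by omega⟩
      by_cases hμ : M < μ
      · exact absurd (tm_vanish k e L μ n (h μ hμ)) hne
      · exact ⟨μ, Finset.mem_range.2 (by omega), hne, rfl⟩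
    · rw [tm_zero k e L j hpar] at hne
      simp at hne
  · intro μ _ _
    rfl

theorem coeff_two (ε C x : ℤ) : ((ε • (T C + T (C - 4)) : ℤ[T;T⁻¹])).coeff x =
    ε * ((if C = x then 1 else 0) + (if C - 4 = x then 1 else 0)) := by
  rw [AddMonoidAlgebra.coeff_smul, Finsupp.smul_apply, AddMonoidAlgebra.coeff_add, Finsupp.add_apply,
    T_apply, T_apply, smul_eq_mul]

theorem negOnePow_sub_one (n : ℤ) : (Int.negOnePow (n - 1) : ℤ) = -(Int.negOnePow n : ℤ) := by
  rw [Int.negOnePow_sub]; simp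

theorem negOnePow_add_one (n : ℤ) : (Int.negOnePow (n + 1) : ℤ) = -(Int.negOnePow n : ℤ) := by
  rw [Int.negOnePow_succ]; simp

theorem negOnePow_sq (n : ℤ) : (Int.negOnePow n : ℤ) * (Int.negOnePow n : ℤ) = 1 := by
  rcases Int.even_or_odd n with h | h
  · rw [Int.negOnePow_even n h]; simp
  · rw [Int.negOnePow_odd n h]; simp

theorem ts_ne (hm : 3 ≤ m) (hπ : π < 2) (k : ℕ) (hk : 1 ≤ k) (e : ℤ) (L : List ℕ)
    (hL : ∀ i ∈ L, i + 1 < m) (hall : ∀ i, i + 1 < m → i ∈ L) (ε C : ℤ) :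
    ts m π k e L ≠ ε • (T C + T (C - 4)) := by
  intro hF
  have hkZ : (1 : ℤ) ≤ k := by exact_mod_cast hk
  set p := cnt π L with hp
  set B := bs m k e with hB
  have hcf : ∀ n : ℤ, (ts m π k e L).coeff (B - 4 * n) =
      ε * ((if C = B - 4 * n then 1 else 0) + (if C - 4 = B - 4 * n then 1 else 0)) := by
    intro n
    rw [hF, coeff_two]
  have ht1 := tw_first hm hπ L hL
  have hc1 := tw_second hm hπ L hL hall
  rw [← hp] at ht1 hc1
  rcases Nat.mod_two_eq_zero_or_one m with hm2 | hm2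
  · -- `m` even
    have hM : m % 2 + 2 * 1 ≤ m := by omega
    have hlarge : ∀ n : ℤ, p - 1 ≤ n → ∀ μ : ℕ, 1 < μ →
        cnt π L < n - (m % 2 + 2 * μ : ℕ) + μ + k * (μ * (μ + ((m % 2 : ℕ) : ℤ) + 1)) := by
      intro n hn μ hμ
      have hμZ : (2 : ℤ) ≤ μ := by exact_mod_cast hμ
      rw [hm2]
      push_cast
      have h1 : (μ : ℤ) * (μ + 1) ≤ k * (μ * (μ + 0 + 1)) := by
        have : (0 : ℤ) ≤ μ * (μ + 1) := by positivity
        nlinarith
      nlinarith
    have hterm : ∀ n : ℤ, p - 1 ≤ n → (ts m π k e L).coeff (B - 4 * n) =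
        (Int.negOnePow n : ℤ) * ((tw m 0 π L).coeff n : ℤ) +
        (Int.negOnePow (n - 2 + 1 + k * 2) : ℤ) * ((tw m 2 π L).coeff (n - 2 + 1 + k * 2) : ℤ) +
        ((Int.negOnePow (n - 1 + 1 + k * 2) : ℤ) * ((tw m 2 π L).coeff (n - 1 + 1 + k * 2) : ℤ) +
        (Int.negOnePow (n - 0 + 1 + k * 2) : ℤ) * ((tw m 2 π L).coeff (n - 0 + 1 + k * 2) : ℤ)) := by
      intro n hn
      rw [ts_coeff k e L n 1 hM (hlarge n hn), Finset.sum_range_succ, Finset.sum_range_succ,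
        Finset.sum_range_zero, tm_coeff, tm_coeff, hm2]
      norm_num [Finset.sum_range_succ]
      ring_nf
    have hz : ∀ x : ℤ, p < x → ((tw m 2 π L).coeff x : ℤ) = 0 := by
      intro x hx
      rw [tw_gt L x hx]; rfl
    have hz0 : ∀ x : ℤ, p < x → ((tw m 0 π L).coeff x : ℤ) = 0 := by
      intro x hx
      rw [tw_gt L x hx]; rfl
    rw [hm2] at ht1 hc1
    have h1 := hterm (p+1) (by omega)
    rw [hz0 (p+1) (by omega), hz _ (by omega), hz _ (by omega), hz _ (by omega), hcf] at h1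
    have h2 := hterm p (by omega)
    rw [hz (p - 2 + 1 + k * 2) (by omega), hz (p - 1 + 1 + k * 2) (by omega),
      hz (p - 0 + 1 + k * 2) (by omega), hcf] at h2
    have h3 := hterm (p-1) (by omega)
    rw [hz (p - 1 - 1 + 1 + k * 2) (by omega), hz (p - 1 - 0 + 1 + k * 2) (by omega), hcf] at h3
    simp only [mul_zero, add_zero] at h1 h2 h3
    have ht0 : (0 : ℤ) < ((tw m 0 π L).coeff p : ℤ) := by
      exact_mod_cast Nat.pos_of_ne_zero ht1
    have hc0 : (1 : ℤ) ≤ ((tw m 0 π L).coeff (p-1) : ℤ) := by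
      exact_mod_cast Nat.pos_of_ne_zero hc1
    have ht2 : ((tw m 2 π L).coeff p : ℤ) ≤ 1 := by
      exact_mod_cast tw_le_one hm2 hπ L hL hall
    have ht2' : (0 : ℤ) ≤ ((tw m 2 π L).coeff p : ℤ) := by positivity
    have hsq := negOnePow_sq p
    have hε : ε ≠ 0 := by
      rintro rfl
      rw [zero_mul] at h2
      have := mul_ne_zero (fun h0 : (Int.negOnePow p : ℤ) = 0 => by rw [h0] at hsq; simp at hsq) ht0.ne'
      exact this h2.symm
    have hne : ¬ (C ≠ B - 4 * p ∧ C - 4 ≠ B - 4 * p) := by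
      rintro ⟨g1, g2⟩
      rw [if_neg g1, if_neg g2, add_zero, mul_zero] at h2
      have := mul_ne_zero (fun h0 : (Int.negOnePow p : ℤ) = 0 => by rw [h0] at hsq; simp at hsq) ht0.ne'
      exact this h2.symm
    by_cases g1 : C = B - 4 * p
    · rw [if_neg (by omega), if_pos (by omega), zero_add, mul_one] at h1
      exact hε h1
    · have g2 : C - 4 = B - 4 * p := by
        by_contra g2
        exact hne ⟨g1, g2⟩
      rw [if_neg g1, if_pos g2, zero_add, mul_one] at h2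
      rw [if_pos (by omega), if_neg (by omega), add_zero, mul_one, negOnePow_sub_one] at h3
      have h4 : ((tw m 0 π L).coeff p : ℤ) = (Int.negOnePow p : ℤ) * ε := by
        rw [h2, ← mul_assoc, hsq, one_mul]
      by_cases hk1 : k = 1
      · subst hk1
        have e1 : p - 1 - 2 + 1 + ((1 : ℕ) : ℤ) * 2 = p := by push_cast; ring
        rw [e1] at h3
        rw [h3] at h4
        have h5 : ((tw m 0 π L).coeff p : ℤ) =
            -((tw m 0 π L).coeff (p-1) : ℤ) + ((tw m 2 π L).coeff p : ℤ) := by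
          rw [h4]
          linear_combination (-((tw m 0 π L).coeff (p-1) : ℤ) + ((tw m 2 π L).coeff p : ℤ)) * hsq
        omega
      · rw [hz _ (by omega), mul_zero, add_zero] at h3
        rw [h3] at h4
        have h5 : ((tw m 0 π L).coeff p : ℤ) = -((tw m 0 π L).coeff (p-1) : ℤ) := by
          rw [h4]
          linear_combination (-((tw m 0 π L).coeff (p-1) : ℤ)) * hsq
        omega
  · -- `m` odd
    have hM : m % 2 + 2 * 0 ≤ m := by omega
    have hlarge : ∀ n : ℤ, p ≤ n → ∀ μ : ℕ, 0 < μ →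
        cnt π L < n - (m % 2 + 2 * μ : ℕ) + μ + k * (μ * (μ + ((m % 2 : ℕ) : ℤ) + 1)) := by
      intro n hn μ hμ
      have hμZ : (1 : ℤ) ≤ μ := by exact_mod_cast hμ
      rw [hm2]
      push_cast
      have h1 : (μ : ℤ) * (μ + 2) ≤ k * (μ * (μ + 1 + 1)) := by
        have : (0 : ℤ) ≤ μ * (μ + 2) := by positivity
        nlinarith
      nlinarith
    have hterm : ∀ n : ℤ, p ≤ n → (ts m π k e L).coeff (B - 4 * n) =
        -((Int.negOnePow n : ℤ) * ((tw m 1 π L).coeff n : ℤ) +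
        (Int.negOnePow (n - 1) : ℤ) * ((tw m 1 π L).coeff (n - 1) : ℤ)) := by
      intro n hn
      rw [ts_coeff k e L n 0 hM (hlarge n hn), Finset.sum_range_succ,
        Finset.sum_range_zero, tm_coeff, hm2]
      norm_num [Finset.sum_range_succ]
    have hz : ∀ x : ℤ, p < x → ((tw m 1 π L).coeff x : ℤ) = 0 := by
      intro x hx
      rw [tw_gt L x hx]; rfl
    rw [hm2] at ht1 hc1
    have h1 := hterm (p+1+1) (by omega)
    rw [hz _ (by omega), hz _ (by omega), hcf] at h1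
    have h2 := hterm (p+1) (by omega)
    rw [hz (p+1) (by omega), hcf] at h2
    have h3 := hterm p (by omega)
    rw [hcf] at h3
    have e1 : p + 1 - 1 = p := by ring
    rw [e1] at h2
    simp only [mul_zero, add_zero, zero_add, neg_zero] at h1 h2
    rw [negOnePow_sub_one] at h3
    have ht0 : (0 : ℤ) < ((tw m 1 π L).coeff p : ℤ) := by
      exact_mod_cast Nat.pos_of_ne_zero ht1
    have hc0 : (1 : ℤ) ≤ ((tw m 1 π L).coeff (p-1) : ℤ) := by
      exact_mod_cast Nat.pos_of_ne_zero hc1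
    have hsq := negOnePow_sq p
    have hsg : (Int.negOnePow p : ℤ) ≠ 0 := fun h0 => by rw [h0] at hsq; simp at hsq
    have hε : ε ≠ 0 := by
      rintro rfl
      rw [zero_mul] at h2
      exact (neg_ne_zero.2 (mul_ne_zero hsg ht0.ne')) h2.symm
    have hne : ¬ (C ≠ B - 4 * (p+1) ∧ C - 4 ≠ B - 4 * (p+1)) := by
      rintro ⟨g1, g2⟩
      rw [if_neg g1, if_neg g2, add_zero, mul_zero] at h2
      exact (neg_ne_zero.2 (mul_ne_zero hsg ht0.ne')) h2.symm
    by_cases g1 : C = B - 4 * (p+1)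
    · rw [if_neg (by omega), if_pos (by omega), zero_add, mul_one] at h1
      exact hε h1
    · have g2 : C - 4 = B - 4 * (p+1) := by
        by_contra g2
        exact hne ⟨g1, g2⟩
      rw [if_neg g1, if_pos g2, zero_add, mul_one] at h2
      rw [if_pos (by omega), if_neg (by omega), add_zero, mul_one, h2] at h3
      have h5 : (Int.negOnePow p : ℤ) * ((tw m 1 π L).coeff (p-1) : ℤ) = 0 := by
        linear_combination -h3
      rcases mul_eq_zero.1 h5 with h6 | h6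
      · exact hsg h6
      · omega

end coeffs

end Pool.Agent.H970.TA
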