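import Mathlib

/-!
# Link states and the moves of the Temperley–Lieb generators
-/

set_option autoImplicit false

namespace Pool.Agent.H970.TA

/-- join `p` with `q`, and the partner of `p` with the partner of `q` -/
def mv (p q : ℕ) (b : ℕ → ℕ) : ℕ → ℕ := fun x =>
  if x = p then q else if x = q then p
  else if x = b p then (if b q = q then x else b q)
  else if x = b q then (if b p = p then x else b p)
  else b x

theorem mv_cup {p q : ℕ} {b : ℕ → ℕ} (hb : ∀ x, b (b x) = x) (h : b p = q) :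
    mv p q b = b := by
  funext x
  unfold mv
  grind

theorem mv_left (p q : ℕ) (b : ℕ → ℕ) : mv p q b p = q := by
  unfold mv; grind

theorem mv_right (p q : ℕ) (b : ℕ → ℕ) : mv p q b q = p := by
  unfold mv; grind

theorem mv_inv {p q : ℕ} {b : ℕ → ℕ} (hb : ∀ x, b (b x) = x) (hpq : p ≠ q) (x : ℕ) : mv p q b (mv p q b x) = x := by
  unfold mv
  grind

theorem mv_comm (p q : ℕ) (b : ℕ → ℕ) : mv p q b = mv q p b := by
  funext x
  unfold mv
  grind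

theorem mv_mv {p q r : ℕ} {b : ℕ → ℕ} (hb : ∀ x, b (b x) = x) (h : b p = q) (hpq : p ≠ q)
    (hpr : r ≠ p) (hqr : r ≠ q) : mv p q (mv q r b) = b := by
  funext x
  unfold mv
  grind

theorem far_Z {p q r s : ℕ} {b : ℕ → ℕ} (hb : ∀ x, b (b x) = x) (h1 : p ≠ r) (h2 : p ≠ s) (h3 : q ≠ r)
    (h4 : q ≠ s) (h : b p = p ∧ b q = q) : mv r s b p = p ∧ mv r s b q = q := by
  unfold mv
  grind

theorem far_Z' {p q r s : ℕ} {b : ℕ → ℕ} (hb : ∀ x, b (b x) = x)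
    (h1 : p ≠ r) (h2 : p ≠ s) (h3 : q ≠ r)
    (h4 : q ≠ s) (hZ : ¬ (b p = p ∧ b q = q)) (hZ' : ¬ (b r = r ∧ b s = s)) :
    (mv r s b p = p ∧ mv r s b q = q) ↔ (mv p q b r = r ∧ mv p q b s = s) := by
  unfold mv
  grind

theorem far_C {p q r s : ℕ} {b : ℕ → ℕ} (hb : ∀ x, b (b x) = x)
    (h1 : p ≠ r) (h2 : p ≠ s) (h3 : q ≠ r)
    (h4 : q ≠ s) (h : b p = q) : mv r s b p = q := by
  unfold mv
  grind

theorem far_C' {p q r s : ℕ} {b : ℕ → ℕ} (hb : ∀ x, b (b x) = x) (h0 : p ≠ q) (h0' : r ≠ s)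
    (h1 : p ≠ r) (h2 : p ≠ s) (h3 : q ≠ r)
    (h4 : q ≠ s) (h : ¬ b p = q) (h' : ¬ b r = s) : (mv r s b p = q) ↔ (mv p q b r = s) := by
  unfold mv
  grind

theorem far_mv {p q r s : ℕ} {b : ℕ → ℕ} (hb : ∀ x, b (b x) = x) (h0 : p ≠ q) (h0' : r ≠ s)
    (h1 : p ≠ r) (h2 : p ≠ s) (h3 : q ≠ r)
    (h4 : q ≠ s) (hZ'' : ¬ (mv p q b r = r ∧ mv p q b s = s)) :
    mv p q (mv r s b) = mv r s (mv p q b) := by
  funext x
  unfold mv at *
  grind (splits := 40)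

end Pool.Agent.H970.TA
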