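import Pool.Agent.H970_TA.Formula

/-!
# Alternating words act by nonnegative matrices
-/

set_option autoImplicit false

namespace Pool.Agent.H970.TA

open Finset Pool.Agent.H891R2.Jones Pool.Agent.TH561 Pool.Agent.W639.RB LaurentPolynomial

/-! ### the substitution `s ↦ -A^{-4}` -/

/-- `-A^{-4}` as a unit -/
noncomputable def su : (ℤ[T;T⁻¹])ˣ where
  val := -T (-4)
  inv := -T 4
  val_inv := by rw [neg_mul_neg, ← T_add]; simp
  inv_val := by rw [neg_mul_neg, ← T_add]; simp

/-- the substitution `s ↦ -A^{-4}` -/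
noncomputable def phi : ℕ[T;T⁻¹] →+* ℤ[T;T⁻¹] := LaurentPolynomial.eval₂ (Nat.castRingHom _) su

theorem phi_T (n : ℤ) : phi (T n) = ((su ^ n : (ℤ[T;T⁻¹])ˣ) : ℤ[T;T⁻¹]) := by
  unfold phi; rw [LaurentPolynomial.eval₂_T]

theorem su_pow (n : ℤ) : ((su ^ n : (ℤ[T;T⁻¹])ˣ) : ℤ[T;T⁻¹]) = (Int.negOnePow n : ℤ) • T (-4 * n) := by
  induction n using Int.induction_on with
  | zero => simp
  | succ k ih =>
    rw [zpow_add_one, Units.val_mul, ih, Int.negOnePow_succ]
    have : (su : ℤ[T;T⁻¹]) = -T (-4) := rfl
    rw [this, smul_mul_assoc, mul_neg, ← T_add]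
    have e : -4 * (k : ℤ) + -4 = -4 * (k + 1) := by ring
    rw [e]
    simp
  | pred k ih =>
    rw [zpow_sub_one, Units.val_mul, ih, Int.negOnePow_sub]
    have : ((su⁻¹ : (ℤ[T;T⁻¹])ˣ) : ℤ[T;T⁻¹]) = -T 4 := rfl
    rw [this, smul_mul_assoc, mul_neg, ← T_add]
    have e : -4 * (-(k : ℤ)) + 4 = -4 * (-(k:ℤ) - 1) := by ring
    rw [e]
    simp

theorem phi_one_T : phi (T 1) = -T (-4) := by
  rw [phi_T]; simp [su]

theorem phi_neg_T : phi (T (-1)) = -T 4 := by
  rw [phi_T]; simp; rfl

/-- coefficients of `phi f` -/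
theorem coeff_phi (f : ℕ[T;T⁻¹]) (n : ℤ) :
    (phi f).coeff (-4 * n) = (Int.negOnePow n : ℤ) * (f.coeff n : ℤ) := by
  induction f using LaurentPolynomial.induction_on' with
  | add p q hp hq =>
    rw [map_add, AddMonoidAlgebra.coeff_add, AddMonoidAlgebra.coeff_add, Finsupp.add_apply,
      Finsupp.add_apply, hp, hq]
    push_cast
    ring
  | C_mul_T k a =>
    have h1 : phi (C a) = (a : ℤ[T;T⁻¹]) := by
      unfold phi; rw [LaurentPolynomial.eval₂_C]; rfl
    rw [RingHom.map_mul, h1, phi_T, su_pow]
    have h2 : ((a : ℤ[T;T⁻¹]) * ((Int.negOnePow k : ℤ) • T (-4 * k))) =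
        ((a : ℤ) * (Int.negOnePow k : ℤ)) • (T (-4 * k) : ℤ[T;T⁻¹]) := by
      rw [mul_smul]
      simp
    have h3 : ((C a : ℕ[T;T⁻¹]) * T k).coeff n = if k = n then a else 0 := by
      rw [← LaurentPolynomial.single_eq_C_mul_T, AddMonoidAlgebra.coeff_single, Finsupp.single_apply]
    rw [h2, h3, AddMonoidAlgebra.coeff_smul, Finsupp.smul_apply, T_apply, smul_eq_mul]
    by_cases h : k = n
    · subst h
      simp
      ring
    · rw [if_neg h, if_neg (by omega)]
      simp

theorem coeff_phi_ne (f : ℕ[T;T⁻¹]) (n : ℤ) (hn : ¬ (4 : ℤ) ∣ n) : (phi f).coeff n = 0 := by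
  induction f using LaurentPolynomial.induction_on' with
  | add p q hp hq =>
    rw [map_add, AddMonoidAlgebra.coeff_add, Finsupp.add_apply, hp, hq, add_zero]
  | C_mul_T k a =>
    have h1 : phi (C a) = (a : ℤ[T;T⁻¹]) := by
      unfold phi; rw [LaurentPolynomial.eval₂_C]; rfl
    rw [RingHom.map_mul, h1, phi_T, su_pow]
    have h2 : ((a : ℤ[T;T⁻¹]) * ((Int.negOnePow k : ℤ) • T (-4 * k))) =
        ((a : ℤ) * (Int.negOnePow k : ℤ)) • (T (-4 * k) : ℤ[T;T⁻¹]) := by
      rw [mul_smul]
      simp
    rw [h2, AddMonoidAlgebra.coeff_smul, Finsupp.smul_apply, T_apply, smul_eq_mul, if_neg (by omega),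
      mul_zero]

/-! ### the nonnegative matrices -/

open Classical in
/-- the matrix of a letter of an alternating word -/
noncomputable def PL (m j π i : ℕ) : Matrix (LS m j) (LS m j) ℕ[T;T⁻¹] := Matrix.of fun a b =>
  if Cup i b then (if a = b then T (if i % 2 = π then 1 else -1) else 0)
  else (if a = b then 1 else 0) + (if ¬ Thr i b ∧ a = mvS i b then 1 else 0)

theorem LM_eq (m j π : ℕ) (hπ : π < 2) (x : Bool × ℕ) (hx : x.2 + 1 < m)
    (hx' : x.1 = true ↔ x.2 % 2 = π) (a b : LS m j) :
    LM m j x a b = T (sgn x) * (T (2 * (lf π m b.1 : ℤ) - 2 * (lf π m a.1 : ℤ)) *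
      phi (PL m j π x.2 a b)) := by
  classical
  obtain ⟨ε, i⟩ := x
  simp only at hx hx'
  unfold LM PL EE
  rw [Matrix.add_apply, Matrix.smul_apply, Matrix.smul_apply, Matrix.one_apply, MM_apply,
    Matrix.of_apply, smul_eq_mul, smul_eq_mul]
  simp only
  by_cases hC : Cup i b
  · rw [if_pos hC, mvS_cup hC, cf_cup _ hC]
    by_cases hab : a = b
    · subst hab
      rw [if_pos rfl, if_pos rfl, if_pos rfl, sub_self, T_zero, one_mul, mul_one]
      by_cases hi : i % 2 = π
      · have hε := hx'.2 hi
        rw [if_pos hi, phi_one_T, hε]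
        unfold dl sgn
        simp only [if_true, mul_sub, mul_neg, ← T_add]
        norm_num
        ring
      · have hε : ε = false := by
          cases ε
          · rfl
          · exact absurd (hx'.1 rfl) hi
        rw [if_neg hi, phi_neg_T, hε]
        unfold dl sgn
        simp only [Bool.false_eq_true, if_false, mul_sub, mul_neg, ← T_add]
        norm_num
    · rw [if_neg hab, if_neg hab, if_neg hab, map_zero]
      ring
  · rw [if_neg hC]
    by_cases hZ : Thr i b
    · rw [cf_thr _ hZ]
      simp only [hZ, not_true, false_and, if_false, add_zero, ite_self, mul_zero]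
      by_cases hab : a = b
      · subst hab
        rw [if_pos rfl, if_pos rfl, sub_self, T_zero, map_one]
        ring
      · rw [if_neg hab, if_neg hab, map_zero]
        ring
    · rw [cf_mv _ hC hZ]
      have hne : b ≠ mvS i b := by
        intro h
        apply hC
        rw [h]
        exact cup_mvS hx hZ
      by_cases hab : a = b
      · subst hab
        rw [if_pos rfl, if_pos rfl, if_neg hne, if_neg (fun h => hne h.2), sub_self, T_zero, add_zero,
          map_one]
        ring
      · rw [if_neg hab, if_neg hab]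
        by_cases hab' : a = mvS i b
        · rw [if_pos hab', if_pos ⟨hZ, hab'⟩, hab', mvS_val hx hZ, zero_add, map_one]
          by_cases hi : i % 2 = π
          · have hε := hx'.2 hi
            subst hi
            rw [b.2.1.lf_mv_eq hx hZ hC, hε]
            unfold sgn
            simp only [if_true, mul_zero, mul_one, zero_add, ← T_add]
            congr 1
            push_cast
            ring
          · have hε : ε = false := by
              cases ε
              · rfl
              · exact absurd (hx'.1 rfl) hi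
            have hπ' : π = (i+1) % 2 := by omega
            have h1 := b.2.1.lf_mv_ne hx hZ hC
            rw [← hπ'] at h1
            rw [hε, ← h1]
            unfold sgn
            simp only [Bool.false_eq_true, if_false, mul_zero, mul_one, zero_add, ← T_add]
            congr 1
            push_cast
            ring
        · rw [if_neg hab', if_neg (fun h => hab' h.2)]
          simp

/-- the trace of an alternating word -/
theorem chi_eq (m j π : ℕ) (hπ : π < 2) (W : List (Bool × ℕ)) (hW : ∀ x ∈ W, x.2 + 1 < m)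
    (hW' : ∀ x ∈ W, (x.1 = true ↔ x.2 % 2 = π)) :
    chi m j W = T (expo W) * phi (Matrix.trace ((W.map (fun x => PL m j π x.2)).prod)) := by
  classical
  have key : ∀ a b : LS m j, (W.map (LM m j)).prod a b =
      T (expo W) * (T (2 * (lf π m b.1 : ℤ) - 2 * (lf π m a.1 : ℤ)) *
        phi ((W.map (fun x => PL m j π x.2)).prod a b)) := by
    induction W with
    | nil =>
      intro a b
      rw [List.map_nil, List.map_nil, List.prod_nil, List.prod_nil, Matrix.one_apply, Matrix.one_apply]
      have : expo [] = 0 := rfl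
      rw [this, T_zero, one_mul]
      by_cases hab : a = b
      · subst hab
        rw [if_pos rfl, if_pos rfl, sub_self, T_zero, map_one, mul_one]
      · rw [if_neg hab, if_neg hab, map_zero, mul_zero]
    | cons x W ih =>
      intro a b
      have ih' := ih (fun y hy => hW y (List.mem_cons_of_mem _ hy))
        (fun y hy => hW' y (List.mem_cons_of_mem _ hy))
      rw [List.map_cons, List.prod_cons, List.map_cons, List.prod_cons, Matrix.mul_apply,
        Matrix.mul_apply, map_sum, Finset.mul_sum, Finset.mul_sum, expo_cons]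
      refine Finset.sum_congr rfl fun c _ => ?_
      rw [ih', LM_eq m j π hπ x (hW x List.mem_cons_self) (hW' x List.mem_cons_self), map_mul]
      have e1 : (T (sgn x + expo W) : ℤ[T;T⁻¹]) = T (sgn x) * T (expo W) := T_add _ _
      have e2 : (T (2 * (lf π m b.1 : ℤ) - 2 * (lf π m a.1 : ℤ)) : ℤ[T;T⁻¹]) =
          T (2 * (lf π m c.1 : ℤ) - 2 * (lf π m a.1 : ℤ)) *
          T (2 * (lf π m b.1 : ℤ) - 2 * (lf π m c.1 : ℤ)) := by
        rw [← T_add]; congr 1; ring
      rw [e1, e2]
      ring
  unfold chi Matrix.trace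
  rw [map_sum, Finset.mul_sum]
  refine Finset.sum_congr rfl fun a _ => ?_
  rw [Matrix.diag_apply, Matrix.diag_apply, key, sub_self, T_zero, one_mul]

end Pool.Agent.H970.TA
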