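import Pool.Agent.H970_TA.LinkStates
import Pool.Agent.H891R2.Jones.TL

/-!
# The Temperley–Lieb generators acting on link states
-/

set_option autoImplicit false

namespace Pool.Agent.H970.TA

open Pool.Agent.H891R2.Jones

/-! ### monomial matrices -/

section MM

variable {α R : Type*} [Fintype α] [DecidableEq α] [CommSemiring R]

/-- the matrix whose column `a` is `c a` times the basis vector `f a` -/
def MM (c : α → R) (f : α → α) : Matrix α α R := Matrix.of fun a' a => if a' = f a then c a else 0

omit [Fintype α] in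
theorem MM_apply (c : α → R) (f : α → α) (a' a : α) : MM c f a' a = if a' = f a then c a else 0 := rfl

theorem MM_mul (c c' : α → R) (f f' : α → α) :
    MM c f * MM c' f' = MM (fun a => c (f' a) * c' a) (f ∘ f') := by
  ext a' a
  rw [Matrix.mul_apply, Finset.sum_eq_single (f' a)]
  · simp only [MM_apply, if_true, Function.comp_apply, ite_mul, zero_mul]
  · intro b _ hb
    rw [MM_apply c', if_neg hb, mul_zero]
  · intro h; exact absurd (Finset.mem_univ _) h

omit [Fintype α] in
theorem MM_congr {c c' : α → R} {f f' : α → α} (h : ∀ a, c a = c' a ∧ (c a = 0 ∨ f a = f' a)) :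
    MM c f = MM c' f' := by
  ext a' a
  rw [MM_apply, MM_apply]
  obtain ⟨h1, h2 | h2⟩ := h a
  · rw [← h1, h2]; simp
  · rw [← h1, h2]

omit [Fintype α] in
theorem MM_smul {S : Type*} [SMulZeroClass S R] (d : S) (c : α → R) (f : α → α) :
    d • MM c f = MM (fun a => d • c a) f := by
  ext a' a
  rw [Matrix.smul_apply, MM_apply, MM_apply]
  split_ifs <;> simp

omit [Fintype α] in
theorem MM_one : MM (fun _ : α => (1 : R)) id = 1 := by
  ext a' a
  rw [MM_apply, Matrix.one_apply]
  rfl

end MM

/-- the link states on `n` points with `j` strands running to infinity -/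
def LS (n j : ℕ) : Type := {b : ℕ → ℕ // IsLS n b ∧ nf n b = j}

instance (n j : ℕ) : Finite (LS n j) := by
  have hinj : Function.Injective (fun b : LS n j => fun x : Fin n => (⟨b.1 x, b.2.1.lt x.2⟩ : Fin n)) := by
    intro b b' h
    apply Subtype.ext
    funext x
    by_cases hx : x < n
    · have := congrFun h ⟨x, hx⟩
      simpa using this
    · rw [b.2.1.out x (by omega), b'.2.1.out x (by omega)]
  exact Finite.of_injective _ hinj

noncomputable instance (n j : ℕ) : Fintype (LS n j) := Fintype.ofFinite _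

noncomputable instance (n j : ℕ) : DecidableEq (LS n j) := Classical.decEq _

section act

variable {n j : ℕ}

/-- the state obtained by the `i`-th Temperley–Lieb generator -/
noncomputable def mvS (i : ℕ) (b : LS n j) : LS n j :=
  if h : i + 1 < n ∧ ¬ (b.1 i = i ∧ b.1 (i+1) = i+1) ∧ b.1 i ≠ i + 1 then
    ⟨mv i (i+1) b.1, b.2.1.of_mv h.1 h.2.2, by rw [b.2.1.nf_mv h.1 h.2.1 h.2.2]; exact b.2.2⟩
  else b

/-- the coefficient -/
def cf {R : Type*} [Zero R] [One R] (d : R) (i : ℕ) (b : LS n j) : R :=
  if b.1 i = i + 1 then d else if b.1 i = i ∧ b.1 (i+1) = i+1 then 0 else 1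

/-- `b` has a cup at `i` -/
def Cup (i : ℕ) (b : LS n j) : Prop := b.1 i = i + 1

/-- two strands running to infinity at `i` -/
def Thr (i : ℕ) (b : LS n j) : Prop := b.1 i = i ∧ b.1 (i+1) = i+1

theorem Cup.not_thr {i : ℕ} {b : LS n j} (h : Cup i b) : ¬ Thr i b := by
  unfold Cup at h; unfold Thr; omega

theorem mvS_cup {i : ℕ} {b : LS n j} (h : Cup i b) : mvS i b = b := by
  unfold mvS
  rw [dif_neg]
  intro h'
  exact h'.2.2 h

theorem cf_cup {R : Type*} [Zero R] [One R] (d : R) {i : ℕ} {b : LS n j} (h : Cup i b) :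
    cf d i b = d := if_pos h

theorem cf_thr {R : Type*} [Zero R] [One R] (d : R) {i : ℕ} {b : LS n j} (h : Thr i b) :
    cf d i b = 0 := by
  unfold cf
  have h' : b.1 i = i ∧ b.1 (i+1) = i+1 := h
  have : ¬ b.1 i = i + 1 := by omega
  rw [if_neg this, if_pos h']

theorem cf_mv {R : Type*} [Zero R] [One R] (d : R) {i : ℕ} {b : LS n j} (h : ¬ Cup i b)
    (h' : ¬ Thr i b) : cf d i b = 1 := by
  have h1 : ¬ b.1 i = i + 1 := h
  have h2 : ¬ (b.1 i = i ∧ b.1 (i+1) = i+1) := h'
  unfold cf
  rw [if_neg h1, if_neg h2]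

theorem mvS_val {i : ℕ} {b : LS n j} (hi : i + 1 < n) (h' : ¬ Thr i b) :
    (mvS i b).1 = mv i (i+1) b.1 := by
  by_cases h : Cup i b
  · rw [mvS_cup h, mv_cup b.2.1.inv h]
  · unfold mvS
    rw [dif_pos ⟨hi, h', h⟩]

theorem cup_mvS {i : ℕ} {b : LS n j} (hi : i + 1 < n) (h' : ¬ Thr i b) : Cup i (mvS i b) := by
  unfold Cup
  rw [mvS_val hi h', mv_left]

theorem Cup.right {i : ℕ} {b : LS n j} (h : Cup i b) : b.1 (i+1) = i := by
  have := b.2.1.inv i
  rw [h] at this
  exact this

/-- a cup at `i` excludes cups and strands to infinity at the neighbouring places -/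
theorem Cup.up {i : ℕ} {b : LS n j} (h : Cup i b) : ¬ Cup (i+1) b ∧ ¬ Thr (i+1) b := by
  have := h.right
  unfold Cup Thr
  omega

theorem Cup.down {i : ℕ} {b : LS n j} (h : Cup (i+1) b) : ¬ Cup i b ∧ ¬ Thr i b := by
  have h1 : b.1 (i+1) = i+1+1 := h
  have h2 := b.2.1.inv i
  unfold Cup Thr
  constructor
  · intro h3
    rw [h3, h1] at h2
    omega
  · omega

theorem updown {i : ℕ} {b : LS n j} (hi : i + 2 < n) (h : Cup i b) :
    ¬ Cup i (mvS (i+1) b) ∧ ¬ Thr i (mvS (i+1) b) ∧ mvS i (mvS (i+1) b) = b := by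
  obtain ⟨h1, h2⟩ := h.up
  have h3 := cup_mvS (show i + 1 + 1 < n by omega) h2
  obtain ⟨h4, h5⟩ := h3.down
  refine ⟨h4, h5, ?_⟩
  apply Subtype.ext
  rw [mvS_val (by omega) h5, mvS_val (by omega) h2]
  exact mv_mv b.2.1.inv h (by omega) (by omega) (by omega)

theorem downup {i : ℕ} {b : LS n j} (hi : i + 2 < n) (h : Cup (i+1) b) :
    ¬ Cup (i+1) (mvS i b) ∧ ¬ Thr (i+1) (mvS i b) ∧ mvS (i+1) (mvS i b) = b := by
  obtain ⟨h1, h2⟩ := h.down
  have h3 := cup_mvS (show i + 1 < n by omega) h2
  obtain ⟨h4, h5⟩ := h3.up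
  refine ⟨h4, h5, ?_⟩
  apply Subtype.ext
  rw [mvS_val (by omega) h5, mvS_val (by omega) h2, mv_comm (i+1), mv_comm i]
  exact mv_mv b.2.1.inv h.right (by omega) (by omega) (by omega)

/-- the far generators commute -/
theorem far_state {R : Type*} [CommSemiring R] (d : R) {i k : ℕ} (hk : k + 1 < n) (hik : i + 2 ≤ k)
    (b : LS n j) : cf d i (mvS k b) * cf d k b = cf d k (mvS i b) * cf d i b ∧
      (cf d i (mvS k b) * cf d k b = 0 ∨ mvS i (mvS k b) = mvS k (mvS i b)) := by
  have hb := b.2.1.inv
  by_cases Z1 : Thr i b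
  · rw [cf_thr d Z1, mul_zero]
    by_cases Z2 : Thr k b
    · rw [cf_thr d Z2, mul_zero]
      exact ⟨rfl, Or.inl rfl⟩
    · have h1 : Thr i (mvS k b) := by
        unfold Thr
        rw [mvS_val hk Z2]
        exact far_Z hb (by omega) (by omega) (by omega) (by omega) Z1
      rw [cf_thr d h1, zero_mul]
      exact ⟨rfl, Or.inl rfl⟩
  · by_cases Z2 : Thr k b
    · rw [cf_thr d Z2, mul_zero]
      have h1 : Thr k (mvS i b) := by
        unfold Thr
        rw [mvS_val (by omega) Z1]
        exact far_Z hb (by omega) (by omega) (by omega) (by omega) Z2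
      rw [cf_thr d h1, zero_mul]
      exact ⟨rfl, Or.inl rfl⟩
    · have hv1 := mvS_val hk Z2
      have hv2 := mvS_val (show i + 1 < n by omega) Z1
      have hZ : Thr i (mvS k b) ↔ Thr k (mvS i b) := by
        unfold Thr
        rw [hv1, hv2]
        exact far_Z' hb (by omega) (by omega) (by omega) (by omega) Z1 Z2
      by_cases Z3 : Thr k (mvS i b)
      · rw [cf_thr d Z3, cf_thr d (hZ.2 Z3), zero_mul, zero_mul]
        exact ⟨rfl, Or.inl rfl⟩
      · have Z4 : ¬ Thr i (mvS k b) := fun h => Z3 (hZ.1 h)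
        refine ⟨?_, Or.inr ?_⟩
        · by_cases C1 : Cup i b
          · have C1' : Cup i (mvS k b) := by
              unfold Cup
              rw [hv1]
              exact far_C hb (by omega) (by omega) (by omega) (by omega) C1
            rw [cf_cup d C1, cf_cup d C1', mvS_cup C1, mul_comm]
          · by_cases C2 : Cup k b
            · have C2' : Cup k (mvS i b) := by
                unfold Cup
                rw [hv2]
                exact far_C hb (by omega) (by omega) (by omega) (by omega) C2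
              rw [cf_cup d C2, cf_cup d C2', mvS_cup C2, mul_comm]
            · rw [cf_mv d C1 Z1, cf_mv d C2 Z2, mul_one, mul_one]
              have hC : Cup i (mvS k b) ↔ Cup k (mvS i b) := by
                unfold Cup
                rw [hv1, hv2]
                exact far_C' hb (by omega) (by omega) (by omega) (by omega) (by omega) (by omega) C1 C2
              by_cases C3 : Cup k (mvS i b)
              · rw [cf_cup d C3, cf_cup d (hC.2 C3)]
              · rw [cf_mv d C3 Z3, cf_mv d (fun h => C3 (hC.1 h)) Z4]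
        · apply Subtype.ext
          rw [mvS_val (by omega) Z4, mvS_val hk Z3, hv1, hv2]
          apply far_mv hb (by omega) (by omega) (by omega) (by omega) (by omega) (by omega)
          rw [← hv2]
          exact Z3

/-- far generators preserve cups -/
theorem Cup.far {i k : ℕ} {b : LS n j} (h : Cup i b) (hk : k + 1 < n) (hik : i + 2 ≤ k ∨ k + 2 ≤ i) :
    Cup i (mvS k b) := by
  by_cases Z : Thr k b
  · have : mvS k b = b := by
      unfold mvS
      rw [dif_neg]
      intro h'
      exact h'.2.1 Z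
    rw [this]
    exact h
  · unfold Cup
    rw [mvS_val hk Z]
    exact far_C b.2.1.inv (by omega) (by omega) (by omega) (by omega) h

end act

/-- the matrix of the `i`-th Temperley–Lieb generator on the link states -/
noncomputable def EE {R : Type*} [CommSemiring R] (n j : ℕ) (d : R) (i : ℕ) :
    Matrix (LS n j) (LS n j) R := MM (cf d i) (mvS i)

section tl

variable {K : Type*} [Field K]

theorem isTL_EE (n j : ℕ) (d : K) : IsTL n d (EE n j d) where
  sq i hi := by
    unfold EE
    rw [MM_mul, MM_smul]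
    apply MM_congr
    intro b
    simp only [smul_eq_mul, Function.comp_apply]
    by_cases Z : Thr i b
    · rw [cf_thr d Z, mul_zero, mul_zero]; exact ⟨rfl, Or.inl rfl⟩
    · have h := cup_mvS hi Z
      rw [cf_cup d h, mvS_cup h]
      exact ⟨rfl, Or.inr rfl⟩
  up i hi := by
    unfold EE
    rw [MM_mul, MM_mul]
    apply MM_congr
    intro b
    simp only [Function.comp_apply]
    by_cases Z : Thr i b
    · rw [cf_thr d Z, mul_zero]; exact ⟨rfl, Or.inl rfl⟩
    · have h := cup_mvS (show i + 1 < n by omega) Z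
      obtain ⟨h1, h2, h3⟩ := updown hi h
      obtain ⟨h4, h5⟩ := h.up
      rw [cf_mv d h1 h2, cf_mv d h4 h5, h3, one_mul, one_mul]
      exact ⟨rfl, Or.inr rfl⟩
  down i hi := by
    unfold EE
    rw [MM_mul, MM_mul]
    apply MM_congr
    intro b
    simp only [Function.comp_apply]
    by_cases Z : Thr (i+1) b
    · rw [cf_thr d Z, mul_zero]; exact ⟨rfl, Or.inl rfl⟩
    · have h := cup_mvS (show i + 1 + 1 < n by omega) Z
      obtain ⟨h1, h2, h3⟩ := downup hi h
      obtain ⟨h4, h5⟩ := h.down
      rw [cf_mv d h1 h2, cf_mv d h4 h5, h3, one_mul, one_mul]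
      exact ⟨rfl, Or.inr rfl⟩
  far i k hk hik := by
    unfold EE
    rw [MM_mul, MM_mul]
    apply MM_congr
    intro b
    exact far_state d hk hik b

end tl

end Pool.Agent.H970.TA
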