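import Pool.Agent.H970_TA.Trace

/-!
# The full twist acts on the link states by a scalar
-/

set_option autoImplicit false

namespace Pool.Agent.H970.TA

open Finset Pool.Agent.H891R2.Jones Pool.Agent.TH561

section

variable {K : Type*} [Field K] {n j : ℕ}

/-- column `b` of a matrix -/
def col (X : Matrix (LS n j) (LS n j) K) (b : LS n j) : LS n j → K := fun a => X a b

/-- basis vectors -/
noncomputable def vb (b : LS n j) : LS n j → K := fun a => if a = b then 1 else 0

theorem mulVec_vb (X : Matrix (LS n j) (LS n j) K) (b : LS n j) : X.mulVec (vb b) = fun a => X a b := by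
  funext a
  rw [Matrix.mulVec, dotProduct, Finset.sum_eq_single b]
  · simp [vb]
  · intro c _ hc; simp [vb, hc]
  · intro h; exact absurd (Finset.mem_univ _) h

theorem EE_vb (d : K) (i : ℕ) (b : LS n j) :
    (EE n j d i).mulVec (vb b) = cf d i b • vb (mvS i b) := by
  rw [mulVec_vb]
  funext a
  unfold EE
  rw [MM_apply]
  simp [vb]

/-- eigenvector of all the matrices -/
def Eig (X : Matrix (LS n j) (LS n j) K) (b : LS n j) (c : K) : Prop := X.mulVec (vb b) = c • vb b

theorem Eig.mul {X Y : Matrix (LS n j) (LS n j) K} {b : LS n j} {c c' : K} (h : Eig X b c)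
    (h' : Eig Y b c') : Eig (X * Y) b (c * c') := by
  unfold Eig at *
  rw [← Matrix.mulVec_mulVec, h', Matrix.mulVec_smul, h, smul_smul, mul_comm]

theorem Eig.one {b : LS n j} : Eig (1 : Matrix (LS n j) (LS n j) K) b 1 := by
  unfold Eig; rw [Matrix.one_mulVec, one_smul]

variable {A d : K}

theorem eig_sg {i : ℕ} {b : LS n j} (h : Thr i b) : Eig (sg A (EE n j d) i) b A := by
  unfold Eig sg
  rw [Matrix.add_mulVec, Matrix.smul_mulVec, Matrix.smul_mulVec, EE_vb, cf_thr d h,
    Matrix.one_mulVec]
  simp

theorem eig_LL {b : LS n j} : ∀ (m k : ℕ), (∀ i, k ≤ i → i + 1 < k + m → Thr i b) →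
    Eig (LL (sg A (EE n j d)) m k) b (A ^ (2 * (m - 1)))
  | 0, _, _ => by simpa [LL] using Eig.one
  | 1, _, _ => by simpa [LL] using Eig.one
  | (m+2), k, h => by
    have h1 := eig_sg (A := A) (d := d) (h k le_rfl (by omega))
    have h2 := eig_LL (m+1) (k+1) (fun i hi hi' => h i (by omega) (by omega))
    rw [LL]
    have := (h1.mul h2).mul h1
    convert this using 1
    have e1 : 2 * (m + 2 - 1) = 1 + 2 * (m + 1 - 1) + 1 := by omega
    rw [e1, pow_add, pow_add, pow_one]

theorem eig_FF {b : LS n j} : ∀ (m k : ℕ), (∀ i, k ≤ i → i + 1 < k + m → Thr i b) →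
    Eig (FF (sg A (EE n j d)) m k) b (A ^ (m * (m - 1)))
  | 0, _, _ => by simpa [FF] using Eig.one
  | (m+1), k, h => by
    have h1 := eig_LL (A := A) (d := d) (m+1) k h
    have h2 := eig_FF m (k+1) (fun i hi hi' => h i (by omega) (by omega))
    rw [FF]
    have := h2.mul h1
    convert this using 1
    rw [← pow_add]
    congr 1
    rcases Nat.eq_zero_or_pos m with rfl | hm
    · simp
    · obtain ⟨m', rfl⟩ : ∃ m', m = m' + 1 := ⟨m - 1, by omega⟩
      simp only [Nat.add_sub_cancel]
      ring

/-- there is a cup unless all strands run to infinity -/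
theorem exists_cup {b : ℕ → ℕ} (h : IsLS n b) {k : ℕ} (hk : ∀ x, k ≤ x → k ≤ b x)
    (hne : ∃ x, k ≤ x ∧ b x ≠ x) : ∃ i, k ≤ i ∧ i + 1 < n ∧ b i = i + 1 := by
  classical
  -- the shortest arc
  have hex : ∃ l, ∃ x, k ≤ x ∧ x < b x ∧ b x = x + l := by
    obtain ⟨x, hx, hbx⟩ := hne
    rcases lt_or_gt_of_ne hbx with h1 | h1
    · refine ⟨x - b x, b x, hk x hx, ?_, ?_⟩
      · rw [h.inv]; exact h1
      · rw [h.inv]; omega
    · exact ⟨b x - x, x, hx, h1, by omega⟩
  obtain ⟨x, hx, hlt, hl⟩ := Nat.find_spec hex
  have hmin : ∀ y, k ≤ y → y < b y → Nat.find hex ≤ b y - y := fun y hy hy' =>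
    Nat.find_min' hex ⟨y, hy, hy', by omega⟩
  refine ⟨x, hx, ?_, ?_⟩
  · have hxn : x < n := by
      by_contra hcon
      have := h.out x (by omega)
      omega
    have := h.lt hxn
    omega
  · by_contra hcon
    have h1 := h.nc x (x+1) (by omega) (by omega)
    rcases lt_or_gt_of_ne h1.2.2 with h2 | h2
    · omega
    · have := hmin (x+1) (by omega) h2
      omega

theorem eig_main (hA : A ≠ 0) (hd : d = -A^2 - A⁻¹^2) (hd0 : d ≠ 0) : ∀ (m k : ℕ), k + m = n →
    ∀ b : LS n j, (∀ x, k ≤ x → k ≤ b.1 x) → (∀ x, x < k → b.1 x ≠ x) →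
    Eig (FF (sg A (EE n j d)) m k) b (A ^ ((j : ℤ) * (j + 2) - 3 * m)) := by
  intro m
  induction m using Nat.strong_induction_on with
  | _ m ih =>
    intro k hk b hb hb'
    have hTL := isTL_EE n j d
    by_cases hne : ∃ x, k ≤ x ∧ b.1 x ≠ x
    · -- the claim for a cup at `k`
      have base : ∀ b : LS n j, (∀ x, k ≤ x → k ≤ b.1 x) → (∀ x, x < k → b.1 x ≠ x) →
          Cup k b → Eig (FF (sg A (EE n j d)) m k) b (A ^ ((j : ℤ) * (j + 2) - 3 * m)) := by
        intro b hb hb' hc
        have hkn : k + 2 ≤ n := by
          by_contra hcon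
          have h1 : b.1 (k+1) = k+1 := b.2.1.out (k+1) (by omega)
          have h2 := hc.right
          omega
        obtain ⟨m', rfl⟩ : ∃ m', m = m' + 2 := ⟨m - 2, by omega⟩
        have h1 := ih m' (by omega) (k+2) (by omega) b (by
          intro x hx
          have h3 := hb x (by omega)
          have h4 := b.2.1.inv x
          have h5 : b.1 k = k + 1 := hc
          have h6 := hc.right
          by_contra hcon
          have h7 : b.1 x = k ∨ b.1 x = k + 1 := by omega
          rcases h7 with h7 | h7
          · rw [h7, h5] at h4; omega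
          · rw [h7, h6] at h4; omega) (by
          intro x hx
          have h5 : b.1 k = k + 1 := hc
          have h6 := hc.right
          by_cases h7 : x < k
          · exact hb' x h7
          · have h8 : x = k ∨ x = k + 1 := by omega
            rcases h8 with rfl | rfl
            · omega
            · omega)
        have h2 := FF_e hA hd hTL m' k (by omega)
        have h3 : (EE n j d k).mulVec (vb b) = d • vb b := by
          rw [EE_vb, cf_cup d hc, mvS_cup hc]
        unfold Eig at h1 ⊢
        have h4 : d • (FF (sg A (EE n j d)) (m'+2) k).mulVec (vb b) =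
            d • (A ^ ((j : ℤ) * (j + 2) - 3 * ((m' + 2 : ℕ) : ℤ)) • vb b) := by
          rw [← Matrix.mulVec_smul, ← h3, Matrix.mulVec_mulVec, h2, Matrix.smul_mulVec,
            ← Matrix.mulVec_mulVec, h3, Matrix.mulVec_smul, h1, smul_smul, smul_smul, smul_smul]
          congr 1
          have e1 : (A⁻¹ : K)^6 = A ^ (-6 : ℤ) := by
            rw [zpow_neg, inv_pow]
            congr 1
            exact (zpow_natCast A 6).symm
          have e2 : ((j : ℤ) * (j + 2) - 3 * ((m' + 2 : ℕ) : ℤ)) = -6 + ((j : ℤ) * (j + 2) - 3 * m') := by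
            push_cast; ring
          rw [e1, e2, zpow_add₀ hA]
          ring
        exact smul_right_injective _ hd0 h4
      -- the claim for a cup anywhere
      have step : ∀ s (b : LS n j), k + s + 1 < n → (∀ x, k ≤ x → k ≤ b.1 x) →
          (∀ x, x < k → b.1 x ≠ x) → Cup (k+s) b →
          Eig (FF (sg A (EE n j d)) m k) b (A ^ ((j : ℤ) * (j + 2) - 3 * m)) := by
        intro s
        induction s with
        | zero => intro b _ h1 h2 h3; exact base b h1 h2 h3
        | succ s ihs =>
          intro b hs h1 h2 h3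
          have h3' : Cup (k+s+1) b := h3
          obtain ⟨h4, h5⟩ := h3'.down
          obtain ⟨h6, h7, h8⟩ := downup (show k + s + 2 < n by omega) h3'
          have h9 : (mvS (k+s) b).1 = mv (k+s) (k+s+1) b.1 := mvS_val (by omega) h5
          have hinv := b.2.1.inv
          have h10 := ihs (mvS (k+s) b) (by omega) (by
            intro x hx
            rw [h9]
            have e1 := h1 x hx
            have e2 := h1 (k+s) (by omega)
            have e3 := h1 (k+s+1) (by omega)
            unfold mv
            grind) (by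
            intro x hx
            rw [h9]
            have e1 := h2 x hx
            have e2 := h1 (k+s) (by omega)
            have e3 := h1 (k+s+1) (by omega)
            unfold mv
            grind) (cup_mvS (by omega) h5)
          unfold Eig at h10 ⊢
          have h11 : (EE n j d (k+s+1)).mulVec (vb (mvS (k+s) b)) = vb b := by
            rw [EE_vb, cf_mv d h6 h7, h8, one_smul]
          have hcm := FF_comm_e hA hd hTL m k (k+s+1) (by omega) (by omega) (by omega)
          rw [← h11, Matrix.mulVec_mulVec, ← hcm.eq, ← Matrix.mulVec_mulVec, h10,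
            Matrix.mulVec_smul]
      obtain ⟨i, hi1, hi2, hi3⟩ := exists_cup b.2.1 hb hne
      obtain ⟨s, rfl⟩ : ∃ s, i = k + s := ⟨i - k, by omega⟩
      exact step s b hi2 hb hb' hi3
    · push Not at hne
      have h1 : j = m := by
        have h2 := b.2.2
        unfold nf at h2
        have h3 : (range n).filter (fun x => b.1 x = x) = Ico k n := by
          ext x
          rw [mem_filter, mem_range, mem_Ico]
          constructor
          · intro h4
            refine ⟨?_, h4.1⟩
            by_contra hcon
            exact hb' x (by omega) h4.2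
          · intro h4
            exact ⟨h4.2, hne x h4.1⟩
        rw [h3, Nat.card_Ico] at h2
        omega
      have h2 := eig_FF (A := A) (d := d) (b := b) m k (fun i h3 h4 => ⟨hne i h3, hne (i+1) (by omega)⟩)
      convert h2 using 1
      rw [← zpow_natCast]
      congr 1
      rw [h1]
      rcases Nat.eq_zero_or_pos m with rfl | hm
      · simp
      · obtain ⟨m', rfl⟩ : ∃ m', m = m' + 1 := ⟨m - 1, by omega⟩
        simp only [Nat.add_sub_cancel]
        push_cast
        ring

/-- the full twist is a scalar -/
theorem FF_scalar (hA : A ≠ 0) (hd : d = -A^2 - A⁻¹^2) (hd0 : d ≠ 0) :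
    FF (sg A (EE n j d)) n 0 =
      (A ^ ((j : ℤ) * (j + 2) - 3 * n)) • (1 : Matrix (LS n j) (LS n j) K) := by
  ext a b
  have h := eig_main (n := n) (j := j) hA hd hd0 n 0 (by omega) b (fun x _ => Nat.zero_le _)
    (fun x hx => by omega)
  unfold Eig at h
  rw [mulVec_vb] at h
  have h1 := congrFun h a
  rw [h1, Matrix.smul_apply, Matrix.one_apply]
  rfl

end

end Pool.Agent.H970.TA
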