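import Pool.Agent.H970_TA.Deg

/-!
# The second coefficients of the traces of alternating words
-/

set_option autoImplicit false

namespace Pool.Agent.H970.TA

open Finset Pool.Agent.H891R2.Jones Pool.Agent.TH561 Pool.Agent.W639.RB LaurentPolynomial

/-- neighbours -/
def Adj (i y : ℕ) : Prop := i = y + 1 ∨ y = i + 1

/-- a closest pair of neighbouring letters -/
theorem good_pair (π : ℕ) : ∀ (n : ℕ) (a c d : List ℕ) (i y : ℕ), c.length = n → i % 2 = π →
    y % 2 ≠ π → Adj i y → ∃ (a' c' d' : List ℕ) (i' y' : ℕ),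
      a ++ i :: (c ++ y :: d) = a' ++ i' :: (c' ++ y' :: d') ∧ i' % 2 = π ∧ y' % 2 ≠ π ∧ Adj i' y' ∧
      ∀ z ∈ c', (z % 2 = π → ¬ Adj z y') ∧ (z % 2 ≠ π → ¬ Adj i' z) := by
  intro n
  induction n using Nat.strong_induction_on with
  | _ n ih =>
    intro a c d i y hn hi hy had
    by_cases h : ∀ z ∈ c, (z % 2 = π → ¬ Adj z y) ∧ (z % 2 ≠ π → ¬ Adj i z)
    · exact ⟨a, c, d, i, y, rfl, hi, hy, had, h⟩
    · push Not at h
      obtain ⟨z, hz, hz'⟩ := h
      obtain ⟨c1, c2, rfl⟩ := List.append_of_mem hz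
      simp only [List.length_append, List.length_cons] at hn
      by_cases hzπ : z % 2 = π
      · by_cases hzy : Adj z y
        · obtain ⟨a', c', d', i', y', h1, h2⟩ :=
            ih c2.length (by omega) (a ++ i :: c1) c2 d z y rfl hzπ hy hzy
          refine ⟨a', c', d', i', y', ?_, h2⟩
          rw [← h1]
          simp
        · exact absurd (hz' (fun _ => hzy)).1 (fun h => h hzπ)
      · have hz2 : Adj i z := (hz' (fun h => absurd h hzπ)).2
        obtain ⟨a', c', d', i', y', h1, h2⟩ :=
          ih c1.length (by omega) a c1 (c2 ++ y :: d) i z rfl hi hzπ hz2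
        refine ⟨a', c', d', i', y', ?_, h2⟩
        rw [← h1]
        simp

variable {m π : ℕ}

theorem second_word (hm : 3 ≤ m) (hπ : π < 2) (L : List ℕ) (hL : ∀ i ∈ L, i + 1 < m)
    (a c d : List ℕ) (i y : ℕ) (he : L = a ++ i :: (c ++ y :: d)) (hi : i % 2 = π)
    (hy : y % 2 ≠ π) (had : Adj i y) :
    (XL m (m % 2) π L (b0 hm hπ) (b0 hm hπ)).coeff (cnt π L - 1) ≠ 0 := by
  obtain ⟨a, c, d, i, y, he', hi, hy, had, hc⟩ := good_pair π c.length a c d i y rfl hi hy had
  rw [← he] at he'
  subst he'
  set b := b0 hm hπ with hb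
  have him : i + 1 < m := hL i (by simp)
  have hym : y + 1 < m := hL y (by simp)
  have hci : Cup i b := b0_cup hm hπ i him hi
  have h6 : ¬ Cup y b := b0_not_cup hm hπ y hym hy
  have h7 : ¬ Thr y b := by
    rcases had with rfl | rfl
    · exact hci.down.2
    · exact hci.up.2
  have h8 : ¬ Cup i (mvS y b) ∧ ¬ Thr i (mvS y b) ∧ mvS i (mvS y b) = b := by
    rcases had with rfl | rfl
    · exact downup (by omega) hci
    · exact updown (by omega) hci
  have hstay : ∀ L' : List ℕ, (∀ k ∈ L', k + 1 < m) → (XL m (m % 2) π L' b b).coeff (cnt π L') ≠ 0 := by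
    intro L' hL'
    exact stay L' b (fun k hk => ⟨fun h => b0_cup hm hπ k (hL' k hk) h,
      fun h => b0_not_cup hm hπ k (hL' k hk) h⟩)
  have s1 := hstay a (fun k hk => hL k (by simp [hk]))
  have s2 : (PL m (m % 2) π i b (mvS y b)).coeff 0 ≠ 0 := by
    have := go (π := π) h8.1 h8.2.1
    rw [h8.2.2] at this
    exact this
  have s3 : (XL m (m % 2) π c (mvS y b) (mvS y b)).coeff (cnt π c) ≠ 0 := by
    apply stay
    intro z hz
    have hzm : z + 1 < m := hL z (by simp [hz])
    obtain ⟨hz1, hz2⟩ := hc z hz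
    refine ⟨fun h => ?_, fun h => ?_⟩
    · have h9 := hz1 h
      have h10 := b0_cup hm hπ z hzm h
      apply h10.far hym
      unfold Adj at h9
      omega
    · have h9 := hz2 h
      apply b0_move hm hπ i y z him hym hzm hi hy h had _ h7
      unfold Adj at h9
      omega
  have s4 := go (π := π) h6 h7
  have s5 := hstay d (fun k hk => hL k (by simp [hk]))
  have s6 := mul_pos' s1 (mul_pos' s2 (mul_pos' s3 (mul_pos' s4 s5)))
  rw [XL_append, XL_cons, XL_append, XL_cons, cnt_append, cnt_cons, cnt_append, cnt_cons]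
  have e1 : cnt π a + (dg π i + (cnt π c + (dg π y + cnt π d))) - 1 =
      cnt π a + (0 + (cnt π c + (0 + cnt π d))) := by
    unfold dg
    rw [if_pos hi, if_neg hy]
    ring
  rw [e1]
  exact s6

/-- the trace of a word -/
noncomputable def tw (m j π : ℕ) (L : List ℕ) : ℕ[T;T⁻¹] := Matrix.trace (XL m j π L)

theorem tw_rot (j : ℕ) (L L' : List ℕ) : tw m j π (L ++ L') = tw m j π (L' ++ L) := by
  unfold tw
  rw [XL_append, XL_append, Matrix.trace_mul_comm]

theorem tw_pos {j : ℕ} {L : List ℕ} {b : LS m j} {n : ℤ} (h : (XL m j π L b b).coeff n ≠ 0) :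
    (tw m j π L).coeff n ≠ 0 := by
  unfold tw Matrix.trace
  rw [coeff_sum']
  have h1 : (XL m j π L b b).coeff n ≤ ∑ i, ((XL m j π L).diag i).coeff n :=
    Finset.single_le_sum (f := fun i => ((XL m j π L).diag i).coeff n) (fun _ _ => Nat.zero_le _)
      (Finset.mem_univ b)
  omega

theorem tw_gt {j : ℕ} (L : List ℕ) (n : ℤ) (hn : cnt π L < n) : (tw m j π L).coeff n = 0 := by
  unfold tw Matrix.trace
  rw [coeff_sum']
  apply Finset.sum_eq_zero
  intro b _
  exact XL_gt L b b n hn

theorem tw_first (hm : 3 ≤ m) (hπ : π < 2) (L : List ℕ) (hL : ∀ i ∈ L, i + 1 < m) :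
    (tw m (m % 2) π L).coeff (cnt π L) ≠ 0 :=
  tw_pos (stay L (b0 hm hπ) (fun k hk => ⟨fun h => b0_cup hm hπ k (hL k hk) h,
      fun h => b0_not_cup hm hπ k (hL k hk) h⟩))

theorem tw_second (hm : 3 ≤ m) (hπ : π < 2) (L : List ℕ) (hL : ∀ i ∈ L, i + 1 < m)
    (hall : ∀ i, i + 1 < m → i ∈ L) : (tw m (m % 2) π L).coeff (cnt π L - 1) ≠ 0 := by
  -- rotate such that the word begins with a letter of parity `π`
  have hπL : π ∈ L := hall π (by omega)
  obtain ⟨L1, L2, rfl⟩ := List.append_of_mem hπL
  rw [tw_rot]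
  have hc : cnt π (L1 ++ π :: L2) = cnt π (π :: L2 ++ L1) := by
    rw [cnt_append, cnt_append, add_comm]
  rw [hc]
  -- a neighbour
  obtain ⟨y, hy1, hy2⟩ : ∃ y, y + 1 < m ∧ Adj π y := by
    by_cases h : π = 0
    · exact ⟨1, by omega, Or.inr (by omega)⟩
    · exact ⟨0, by omega, Or.inl (by omega)⟩
  have hy3 : y % 2 ≠ π := by
    unfold Adj at hy2
    omega
  have hyL : y ∈ L2 ++ L1 := by
    have := hall y hy1
    simp only [List.mem_append, List.mem_cons] at this ⊢
    rcases this with h | h | h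
    · exact Or.inr h
    · exfalso
      apply hy3
      rw [h]
      omega
    · exact Or.inl h
  obtain ⟨M1, M2, hM⟩ := List.append_of_mem hyL
  refine tw_pos (second_word hm hπ (π :: L2 ++ L1) ?_ [] M1 M2 π y ?_ (by omega) hy3 hy2)
  · intro i hi
    apply hL i
    simp only [List.mem_append, List.mem_cons] at hi ⊢
    tauto
  · rw [List.nil_append, List.cons_append, hM]

theorem tw_le_one (hm : m % 2 = 0) (hπ : π < 2) (L : List ℕ) (hL : ∀ i ∈ L, i + 1 < m)
    (hall : ∀ i, i + 1 < m → i ∈ L) : (tw m 2 π L).coeff (cnt π L) ≤ 1 := by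
  classical
  have huniq : ∀ b b' : LS m 2, (∀ i, i + 1 < m → i % 2 = π → Cup i b) →
      (∀ i, i + 1 < m → i % 2 = π → Cup i b') → b = b' := by
    have key : ∀ b : LS m 2, (∀ i, i + 1 < m → i % 2 = π → Cup i b) → ∀ x, x < m →
        b.1 x = if x % 2 = π ∧ x + 1 < m then x + 1 else if x % 2 ≠ π ∧ 1 ≤ x then x - 1 else x := by
      intro b hb x hx
      have hinv := b.2.1.inv
      have hlt := fun y (h : y < m) => b.2.1.lt h
      have hb' : ∀ i, i + 1 < m → i % 2 = π → b.1 i = i + 1 := hb
      split_ifs with h1 h2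
      · exact hb' x h1.2 h1.1
      · have h3 := hb' (x-1) (by omega) (by omega)
        have h4 := hinv (x-1)
        rw [h3] at h4
        have h5 : x - 1 + 1 = x := by omega
        rw [h5] at h4
        exact h4
      · -- `x = 0` or `x = m - 1`, and `π = 1`
        have hnf := b.2.2
        unfold nf at hnf
        obtain ⟨z, hz⟩ : ((range m).filter (fun x => b.1 x = x)).Nonempty :=
          Finset.card_pos.1 (by omega)
        rw [mem_filter, mem_range] at hz
        have hodd : ∀ y, y < m → y ≠ 0 → y ≠ m - 1 → π = 1 → b.1 y ≠ 0 ∧ b.1 y ≠ m - 1 ∧ b.1 y ≠ y := by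
          intro y hy h0 h0' hπ1
          by_cases hy' : y % 2 = 1
          · have := hb' y (by omega) (by omega)
            omega
          · have h3 := hb' (y-1) (by omega) (by omega)
            have h4 := hinv (y-1)
            rw [h3] at h4
            have h5 : y - 1 + 1 = y := by omega
            rw [h5] at h4
            omega
        have hπ1 : π = 1 := by omega
        have hx' : x = 0 ∨ x = m - 1 := by omega
        have hz' : z = 0 ∨ z = m - 1 := by
          by_contra hcon
          push Not at hcon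
          exact (hodd z hz.1 hcon.1 hcon.2 hπ1).2.2 hz.2
        have h0 : b.1 0 = 0 ∨ b.1 0 = m - 1 := by
          by_contra hcon
          push Not at hcon
          have := (hodd (b.1 0) (hlt 0 (by omega)) hcon.1 hcon.2 hπ1).1
          exact this (hinv 0)
        have h0' : b.1 (m-1) = 0 ∨ b.1 (m-1) = m - 1 := by
          by_contra hcon
          push Not at hcon
          have := (hodd (b.1 (m-1)) (hlt (m-1) (by omega)) hcon.1 hcon.2 hπ1).2.1
          exact this (hinv (m-1))
        have h1' := hinv 0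
        have h2' := hinv (m-1)
        grind
    intro b b' hb hb'
    apply Subtype.ext
    funext x
    by_cases hx : x < m
    · rw [key b hb x hx, key b' hb' x hx]
    · rw [b.2.1.out x (by omega), b'.2.1.out x (by omega)]
  unfold tw Matrix.trace
  rw [coeff_sum']
  by_cases hne : ∃ b : LS m 2, ((XL m 2 π L).diag b).coeff (cnt π L) ≠ 0
  · obtain ⟨b, hb⟩ := hne
    have hb' := (XL_top hπ L hL b b).2.2 hb
    rw [Finset.sum_eq_single b]
    · exact (XL_top hπ L hL b b).2.1
    · intro c _ hc
      by_contra hcon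
      have hc' := (XL_top hπ L hL c c).2.2 hcon
      exact hc (huniq c b (fun i hi h => hc' i (hall i hi) h) (fun i hi h => hb' i (hall i hi) h))
    · intro h; exact absurd (Finset.mem_univ _) h
  · push Not at hne
    rw [Finset.sum_eq_zero (fun b _ => hne b)]
    omega

/-- there are no link states of the wrong parity -/
theorem card_parity : ∀ n j : ℕ, n % 2 ≠ j % 2 → Fintype.card (LS n j) = 0
  | 0, j, h => card_empty 0 j (by omega)
  | n+1, 0, h => by rw [card_zero]; exact card_parity n 1 (by omega)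
  | n+1, j+1, h => by
    rw [card_succ, card_parity n j (by omega), card_parity n (j+2) (by omega)]

theorem tw_parity (j : ℕ) (L : List ℕ) (h : m % 2 ≠ j % 2) : tw m j π L = 0 := by
  unfold tw Matrix.trace
  have h1 := card_parity m j h
  rw [Fintype.card_eq_zero_iff] at h1
  exact Finset.sum_eq_zero (fun b _ => (h1.false b).elim)

end Pool.Agent.H970.TA
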