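import Pool.Agent.H970_TA.Count
import Pool.Agent.TH561.PB.State2

/-!
# The trace of the matrix of a braid word as a sum over the link state modules
-/

set_option autoImplicit false

namespace Pool.Agent.H970.TA

open Finset Pool.Agent.H891R2.Jones Pool.Agent.TH561

/-! ### the trace of the words `tops` -/

section

variable {K : Type*} [Field K] {n j : ℕ}

/-- coefficient and state of a word applied to a link state -/
noncomputable def wst (L : List ℕ) (b : LS n j) : LS n j := L.foldr mvS b

def wcf {R : Type*} [CommSemiring R] (d : R) (cs : ℕ → LS n j → LS n j) : List ℕ → LS n j → R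
  | [], _ => 1
  | i :: L, b => cf d i (L.foldr cs b) * wcf d cs L b

theorem WP_EE (d : K) : ∀ L : List ℕ, WP (EE n j d) L = MM (wcf d mvS L) (wst L)
  | [] => by
    rw [WP_nil, ← MM_one]
    rfl
  | i :: L => by
    rw [WP_cons, WP_EE d L, EE, MM_mul]
    rfl

theorem wcf_cups (d : K) (L : List ℕ) (b : LS n j) (h : ∀ i ∈ L, Cup i b) :
    wst L b = b ∧ wcf d mvS L b = d ^ L.length := by
  induction L with
  | nil => exact ⟨rfl, by simp [wcf]⟩
  | cons i L ih =>
    obtain ⟨h1, h2⟩ := ih (fun k hk => h k (List.mem_cons_of_mem _ hk))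
    have hi := h i List.mem_cons_self
    have h1' : L.foldr mvS b = b := h1
    refine ⟨?_, ?_⟩
    · show mvS i (L.foldr mvS b) = b
      rw [h1', mvS_cup hi]
    · rw [wcf, h1', cf_cup d hi, h2, List.length_cons, pow_succ']

theorem cups_of_wcf (d : K) (L : List ℕ) (hL : L.Pairwise (fun a b => b + 2 ≤ a))
    (hn : ∀ i ∈ L, i + 1 < n) (b : LS n j) (h : wcf d mvS L b ≠ 0) : ∀ i ∈ L, Cup i (wst L b) := by
  induction L with
  | nil => intro i hi; simp at hi
  | cons i L ih =>
    rw [wcf] at h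
    obtain ⟨h1, h2⟩ := mul_ne_zero_iff.1 h
    rw [List.pairwise_cons] at hL
    have hin := hn i List.mem_cons_self
    have ih' := ih hL.2 (fun k hk => hn k (List.mem_cons_of_mem _ hk)) h2
    have hZ : ¬ Thr i (L.foldr mvS b) := fun hZ => h1 (cf_thr d hZ)
    intro k hk
    show Cup k (mvS i (L.foldr mvS b))
    rcases List.mem_cons.1 hk with rfl | hk
    · exact cup_mvS hin hZ
    · exact (ih' k hk).far hin (Or.inl (hL.1 k hk))

theorem tops_pairwise : ∀ (t r : ℕ), 2 * t ≤ r → (tops r t).Pairwise (fun a b => b + 2 ≤ a)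
  | 0, _, _ => List.Pairwise.nil
  | t+1, r, h => by
    rw [tops, List.pairwise_cons]
    refine ⟨fun i hi => ?_, tops_pairwise t (r-2) (by omega)⟩
    have := tops_mem t (r-2) (by omega) i hi
    omega

theorem tops_length : ∀ (t r : ℕ), (tops r t).length = t
  | 0, _ => rfl
  | t+1, r => by rw [tops, List.length_cons, tops_length]

theorem trace_tops (d : K) (t : ℕ) (hn : 2 * t ≤ n) :
    Matrix.trace (WP (EE n j d) (tops n t)) = d ^ t * (Fintype.card (LS (n - 2 * t) j) : K) := by
  classical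
  rw [WP_EE, Matrix.trace]
  have h1 : ∀ b : LS n j, (MM (wcf d mvS (tops n t)) (wst (tops n t))).diag b =
      if (∀ i ∈ tops n t, Cup i b) then d ^ t else 0 := by
    intro b
    rw [Matrix.diag_apply, MM_apply]
    by_cases h : ∀ i ∈ tops n t, Cup i b
    · obtain ⟨h2, h3⟩ := wcf_cups d _ b h
      rw [if_pos h2.symm, if_pos h, h3, tops_length]
    · rw [if_neg h]
      split_ifs with h2
      · by_contra hne
        apply h
        have := cups_of_wcf d _ (tops_pairwise t n hn) (tops_mem t n hn) b hne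
        rw [← h2] at this
        exact this
      · rfl
  rw [Finset.sum_congr rfl (fun b _ => h1 b), ← Finset.sum_filter, Finset.sum_const, nsmul_eq_mul,
    mul_comm, ← card_tops t n j hn, Nat.card_eq_fintype_card, Fintype.card_subtype]

theorem trace_tops_KK (m N : ℕ) (hN : N ≠ 0) : ∀ (t r : ℕ), 2 * t ≤ r → r ≤ m →
    (N : ℂ) ^ t * Matrix.trace (WP (KK m N) (tops r t)) = (N : ℂ) ^ m
  | 0, r, _, _ => by
    rw [tops, WP_nil, pow_zero, one_mul, Matrix.trace_one]
    simp
  | t+1, r, h, hr => by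
    rw [tops, WP_cons, Matrix.trace_mul_comm, pow_succ, mul_assoc, markov hN (r-2) _ (by omega)]
    · exact trace_tops_KK m N hN t (r-2) (by omega) (by omega)
    · intro i hi
      have := tops_mem t (r-2) (by omega) i hi
      omega

end

/-! ### comparison of the traces -/

section cmp

variable (m N : ℕ)

/-- the product of all representations -/
abbrev RR : Type := Matrix (Fin m → Fin N) (Fin m → Fin N) ℂ ×
  ((j : Fin (m+1)) → Matrix (LS m j) (LS m j) ℂ)

noncomputable def er (i : ℕ) : RR m N := (KK m N i, fun j => EE m j (N : ℂ) i)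

noncomputable def tau1 : RR m N →ₗ[ℂ] ℂ := (Matrix.traceLinearMap _ ℂ ℂ).comp (LinearMap.fst ℂ _ _)

noncomputable def tau2 : RR m N →ₗ[ℂ] ℂ :=
  ∑ j : Fin (m+1), (U (N : ℂ) j) • (Matrix.traceLinearMap _ ℂ ℂ).comp
    ((LinearMap.proj j).comp (LinearMap.snd ℂ _ _))

theorem tau1_apply (x : RR m N) : tau1 m N x = Matrix.trace x.1 := rfl

theorem tau2_apply (x : RR m N) :
    tau2 m N x = ∑ j : Fin (m+1), U (N : ℂ) j * Matrix.trace (x.2 j) := by
  unfold tau2
  rw [LinearMap.sum_apply]
  rfl

theorem tau1_comm (x y : RR m N) : tau1 m N (x * y) = tau1 m N (y * x) := by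
  rw [tau1_apply, tau1_apply]
  exact Matrix.trace_mul_comm _ _

theorem tau2_comm (x y : RR m N) : tau2 m N (x * y) = tau2 m N (y * x) := by
  rw [tau2_apply, tau2_apply]
  refine Finset.sum_congr rfl fun j _ => ?_
  congr 1
  exact Matrix.trace_mul_comm _ _

theorem isTL_er : IsTL m (N : ℂ) (er m N) where
  sq i hi := Prod.ext ((isTL_KK m N).sq i hi) (funext fun j => (isTL_EE m j (N : ℂ)).sq i hi)
  up i hi := Prod.ext ((isTL_KK m N).up i hi) (funext fun j => (isTL_EE m j (N : ℂ)).up i hi)
  down i hi := Prod.ext ((isTL_KK m N).down i hi) (funext fun j => (isTL_EE m j (N : ℂ)).down i hi)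
  far i k hk hik := Prod.ext ((isTL_KK m N).far i k hk hik)
    (funext fun j => (isTL_EE m j (N : ℂ)).far i k hk hik)

theorem WP_er_fst (L : List ℕ) : (WP (er m N) L).1 = WP (KK m N) L := by
  induction L with
  | nil => rfl
  | cons i L ih => rw [WP_cons, WP_cons, Prod.fst_mul, ih]; rfl

theorem WP_er_snd (L : List ℕ) (j : Fin (m+1)) : (WP (er m N) L).2 j = WP (EE m j (N : ℂ)) L := by
  induction L with
  | nil => rfl
  | cons i L ih => rw [WP_cons, WP_cons, Prod.snd_mul, Pi.mul_apply, ih]; rfl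

theorem tau_WP (hN : N ≠ 0) (L : List ℕ) (hL : ∀ i ∈ L, i + 1 < m) :
    tau1 m N (WP (er m N) L) = tau2 m N (WP (er m N) L) := by
  have hN' : (N : ℂ) ≠ 0 := Nat.cast_ne_zero.2 hN
  obtain ⟨x, y, t, ht, h⟩ := red_trace (K := ℂ) (ι := Bool) (R := fun _ => RR m N) (M := m)
    (d := fun _ => (N : ℂ)) (e := fun _ => er m N) (fun _ => isTL_er m N)
    (fun b => if b then tau1 m N else tau2 m N) (by
      intro b x y
      cases b
      · exact tau2_comm m N x y
      · exact tau1_comm m N x y) m le_rfl L hL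
  have h1 := h true 1 (fun i _ => Commute.one_left _)
  have h2 := h false 1 (fun i _ => Commute.one_left _)
  simp only [one_mul, if_true, Bool.false_eq_true, if_false] at h1 h2
  have h3 : tau1 m N (WP (er m N) (tops m t)) = tau2 m N (WP (er m N) (tops m t)) := by
    apply mul_left_cancel₀ (pow_ne_zero t hN')
    rw [tau1_apply, WP_er_fst, trace_tops_KK m N hN t m ht le_rfl, tau2_apply]
    have h4 : ∀ j : Fin (m+1), U (N : ℂ) j * Matrix.trace ((WP (er m N) (tops m t)).2 j) =
        (N : ℂ) ^ t * (U (N : ℂ) j * (Fintype.card (LS (m - 2 * t) j) : ℂ)) := by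
      intro j
      rw [WP_er_snd, trace_tops _ t ht]
      ring
    rw [Finset.sum_congr rfl (fun j _ => h4 j), ← Finset.mul_sum,
      Fin.sum_univ_eq_sum_range (fun j => U (N : ℂ) j * (Fintype.card (LS (m - 2 * t) j) : ℂ)) (m+1),
      sum_U _ _ m (by omega), ← pow_add, ← pow_add]
    congr 1
    omega
  apply mul_left_cancel₀ (pow_ne_zero x hN')
  rw [h1, h2, h3]

/-- the product of the matrices of the letters of a word -/
noncomputable def MG {R : Type*} [Ring R] [Algebra ℂ R] (A : ℂ) (e : ℕ → R) (w : List (Bool × ℕ)) : R :=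
  (w.map (fun x => A ^ (sgn x) • (1 : R) + A ^ (-sgn x) • e x.2)).prod

theorem MG_cons {R : Type*} [Ring R] [Algebra ℂ R] (A : ℂ) (e : ℕ → R) (x : Bool × ℕ)
    (w : List (Bool × ℕ)) :
    MG A e (x :: w) = (A ^ (sgn x) • (1 : R) + A ^ (-sgn x) • e x.2) * MG A e w := by
  simp [MG]

theorem MG_append {R : Type*} [Ring R] [Algebra ℂ R] (A : ℂ) (e : ℕ → R) (w w' : List (Bool × ℕ)) :
    MG A e (w ++ w') = MG A e w * MG A e w' := by simp [MG]

theorem MG_KK (A : ℂ) (w : List (Bool × ℕ)) : MG A (KK m N) w = MR A m N w := rfl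

theorem MG_er_fst (A : ℂ) (w : List (Bool × ℕ)) : (MG A (er m N) w).1 = MR A m N w := by
  induction w with
  | nil => rfl
  | cons x w ih =>
    rw [MG_cons, Prod.fst_mul, ih]
    rfl

theorem MG_er_snd (A : ℂ) (w : List (Bool × ℕ)) (j : Fin (m+1)) :
    (MG A (er m N) w).2 j = MG A (EE m j (N : ℂ)) w := by
  induction w with
  | nil => rfl
  | cons x w ih =>
    rw [MG_cons, MG_cons, Prod.snd_mul, Pi.mul_apply, ih]
    rfl

theorem tau_MG (hN : N ≠ 0) (A : ℂ) (w : List (Bool × ℕ)) : ∀ (L : List ℕ), (∀ i ∈ L, i + 1 < m) →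
    (∀ x ∈ w, x.2 + 1 < m) →
    tau1 m N (WP (er m N) L * MG A (er m N) w) = tau2 m N (WP (er m N) L * MG A (er m N) w) := by
  induction w with
  | nil =>
    intro L hL _
    have : MG A (er m N) [] = 1 := rfl
    rw [this, mul_one]
    exact tau_WP m N hN L hL
  | cons x w ih =>
    intro L hL hw
    have h1 : WP (er m N) L * MG A (er m N) (x :: w) =
        A ^ (sgn x) • (WP (er m N) L * MG A (er m N) w) +
        A ^ (-sgn x) • (WP (er m N) (L ++ [x.2]) * MG A (er m N) w) := by
      rw [MG_cons, WP_append, WP_cons, WP_nil, mul_one, add_mul, mul_add, smul_mul_assoc,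
        smul_mul_assoc, one_mul, mul_smul_comm, mul_smul_comm, mul_assoc]
    have h2 := ih L hL (fun y hy => hw y (List.mem_cons_of_mem _ hy))
    have h3 := ih (L ++ [x.2]) (by
      intro i hi
      rcases List.mem_append.1 hi with hi | hi
      · exact hL i hi
      · rw [List.mem_singleton] at hi
        rw [hi]
        exact hw x List.mem_cons_self) (fun y hy => hw y (List.mem_cons_of_mem _ hy))
    rw [h1, map_add, map_add, map_smul, map_smul, map_smul, map_smul, h2, h3]

/-- the trace of the matrix of a word in the `N`-colour model -/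
theorem trace_MR (hN : N ≠ 0) (A : ℂ) (w : List (Bool × ℕ)) (hw : ∀ x ∈ w, x.2 + 1 < m) :
    Matrix.trace (MR A m N w) =
      ∑ j ∈ range (m+1), U (N : ℂ) j * Matrix.trace (MG A (EE m j (N : ℂ)) w) := by
  have h := tau_MG m N hN A w [] (by simp) hw
  rw [WP_nil, one_mul, tau1_apply, tau2_apply, MG_er_fst] at h
  rw [h, ← Fin.sum_univ_eq_sum_range (fun j => U (N : ℂ) j * Matrix.trace (MG A (EE m j (N : ℂ)) w)) (m+1)]
  refine Finset.sum_congr rfl fun j _ => ?_
  rw [MG_er_snd]

end cmp

end Pool.Agent.H970.TA
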